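import Pool.Agent.K6.H49.TTS.Op
import Pool.Agent.K6.H49.LTR.AlgP
import Pool.Agent.K6.H49.LTR.Fin

/-!
# The algorithm runs in polynomial time
-/

set_option autoImplicit false

namespace Pool.Agent.K6.H49.TTS

open Pool.Agent.NPC
open Pool.Agent.K6.H49.UGX (Edge iterU)
open Pool.Agent.K6.H49.UGQ
open Pool.Agent.K6.H49.LTR
open Pool.Agent.K6.H49.UGS (uPoly_pow uPoly_min)

section Pol

variable {α : Type} [TEnc α]

theorem poly_toF {L : α → List ℕ} {u : α → ℕ} (hL : Poly L) (hu : Poly u) :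
    Poly (fun a => toF (L a) (u a)) := by
  unfold toF
  exact NPC.Poly.getD hL hu (NPC.Poly.const 0)

theorem poly_ct {l : α → List Edge} {p : α → Edge → Bool} (hl : Poly l)
    (hp : Poly (fun z : α × Edge => p z.1 z.2)) : Poly (fun a => ct (l a) (p a)) := by
  unfold ct
  exact Poly.length (Poly.filter (p := p) hl hp)

theorem poly_degL {l : α → List Edge} {u : α → ℕ} (hl : Poly l) (hu : Poly u) :
    Poly (fun a => degL (l a) (u a)) := by
  unfold degL
  refine poly_ct (p := fun a e => decide (e.1 = u a)) hl ?_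
  fun_prop

theorem poly_degR {l : α → List Edge} {u : α → ℕ} (hl : Poly l) (hu : Poly u) :
    Poly (fun a => degR (l a) (u a)) := by
  unfold degR
  refine poly_ct (p := fun a e => decide (e.2.1 = u a)) hl ?_
  fun_prop

theorem poly_unk (q : ℕ) {l : α → List Edge} {L : α → List ℕ} {u : α → ℕ} (hl : Poly l)
    (hL : Poly L) (hu : Poly u) : Poly (fun a => unk q (l a) (toF (L a)) (u a)) := by
  unfold unk
  refine poly_ct (p := fun a e => decide (e.1 = u a) && decide (q ≤ toF (L a) e.2.1)) hl ?_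
  refine Poly.and (by fun_prop) (Poly.decide_le (NPC.Poly.const q) ?_)
  exact poly_toF (by fun_prop) (by fun_prop)

theorem poly_err (q : ℕ) {l : α → List Edge} {L : α → List ℕ} {b u : α → ℕ} (hl : Poly l)
    (hL : Poly L) (hb : Poly b) (hu : Poly u) :
    Poly (fun a => err q (l a) (toF (L a)) (b a) (u a)) := by
  unfold err
  refine poly_ct (p := fun a e => decide (e.1 = u a) && (decide (toF (L a) e.2.1 < q) &&
    !decide (tb e (b a) = toF (L a) e.2.1))) hl ?_
  have h1 : Poly (fun z : α × Edge => toF (L z.1) z.2.2.1) :=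
    poly_toF (by fun_prop) (by fun_prop)
  have h2 : Poly (fun z : α × Edge => tb z.2 (b z.1)) := poly_tb (Poly.snd Poly.id) (by fun_prop)
  exact Poly.and (by fun_prop) (Poly.and (Poly.decide_lt h1 (NPC.Poly.const q))
    (Poly.not (Poly.decide_eq h2 h1)))

theorem poly_actv (q : ℕ) {l : α → List Edge} {L : α → List ℕ} {u : α → ℕ} (hl : Poly l)
    (hL : Poly L) (hu : Poly u) : Poly (fun a => actv q (l a) (toF (L a)) (u a)) := by
  unfold actv
  exact Poly.decide_le (NPC.Poly.mul (NPC.Poly.const 5) (poly_unk q hl hL hu)) (poly_degL hl hu)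

theorem poly_inL (q : ℕ) {l : α → List Edge} {L : α → List ℕ} {b u : α → ℕ} (hl : Poly l)
    (hL : Poly L) (hb : Poly b) (hu : Poly u) :
    Poly (fun a => inL q (l a) (toF (L a)) (b a) (u a)) := by
  unfold inL
  exact Poly.decide_le (NPC.Poly.mul (NPC.Poly.const 100) (poly_err q hl hL hb hu))
    (poly_degL hl hu)

theorem poly_inact (q : ℕ) {l : α → List Edge} {L : α → List ℕ} {v : α → ℕ} (hl : Poly l)
    (hL : Poly L) (hv : Poly v) : Poly (fun a => inact q (l a) (toF (L a)) (v a)) := by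
  unfold inact
  refine poly_ct (p := fun a e => decide (e.2.1 = v a) && !actv q (l a) (toF (L a)) e.1) hl ?_
  refine Poly.and (by fun_prop) (Poly.not ?_)
  exact poly_actv q (by fun_prop) (by fun_prop) (by fun_prop)

theorem poly_vot (q : ℕ) {l : α → List Edge} {L : α → List ℕ} {c v : α → ℕ} (hl : Poly l)
    (hL : Poly L) (hc : Poly c) (hv : Poly v) :
    Poly (fun a => vot q (l a) (toF (L a)) (c a) (v a)) := by
  unfold vot
  refine poly_ct (p := fun a e => decide (e.2.1 = v a) && (actv q (l a) (toF (L a)) e.1 &&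
    (List.range q).any fun b => inL q (l a) (toF (L a)) b e.1 && decide (tb e b = c a))) hl ?_
  refine Poly.and (by fun_prop) (Poly.and ?_ ?_)
  · exact poly_actv q (by fun_prop) (by fun_prop) (by fun_prop)
  · refine Poly.any (p := fun (z : α × Edge) b => inL q (l z.1) (toF (L z.1)) b z.2.1 &&
      decide (tb z.2 b = c z.1)) (NPC.Poly.const _) ?_
    refine Poly.and (poly_inL q (by fun_prop) (by fun_prop) (by fun_prop) (by fun_prop)) ?_
    exact Poly.decide_eq (poly_tb (by fun_prop) (by fun_prop)) (by fun_prop)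

theorem poly_bad2 (q : ℕ) {l : α → List Edge} {L : α → List ℕ} {v : α → ℕ} (hl : Poly l)
    (hL : Poly L) (hv : Poly v) : Poly (fun a => bad2 q (l a) (toF (L a)) (v a)) := by
  unfold bad2
  refine Poly.or ?_ ?_
  · exact Poly.decide_lt (poly_degR hl hv) (NPC.Poly.mul (NPC.Poly.const 200)
      (poly_inact q hl hL hv))
  · refine Poly.any (p := fun a c => !decide (c = toF (L a) (v a)) &&
      decide (99 * degR (l a) (v a) ≤ 100 * vot q (l a) (toF (L a)) c (v a)))
      (NPC.Poly.const _) ?_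
    refine Poly.and (Poly.not (Poly.decide_eq (Poly.snd Poly.id)
      (poly_toF (by fun_prop) (by fun_prop)))) ?_
    exact Poly.decide_le (NPC.Poly.mul (NPC.Poly.const 99) (poly_degR (by fun_prop)
      (by fun_prop))) (NPC.Poly.mul (NPC.Poly.const 100) (poly_vot q (by fun_prop)
      (by fun_prop) (by fun_prop) (by fun_prop)))

theorem poly_st2L (q : ℕ) {n : α → ℕ} {l : α → List Edge} {L : α → List ℕ} (hn : UPoly n)
    (hl : Poly l) (hL : Poly L) : Poly (fun a => st2L (n a) q (l a) (L a)) := by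
  unfold st2L tab
  refine NPC.Poly.map (F := fun a v => st2 q (l a) (toF (L a)) v) hn.range ?_
  unfold st2
  have h1 : Poly (fun z : α × ℕ => toF (L z.1) z.2) := poly_toF (by fun_prop) (by fun_prop)
  refine Poly.ite (Poly.decide_lt h1 (NPC.Poly.const q)) ?_ (NPC.Poly.const q)
  refine Poly.ite (Poly.decide_bool ?_) (NPC.Poly.const q) h1
  exact poly_bad2 q (by fun_prop) (by fun_prop) (by fun_prop)

theorem poly_dom (q : ℕ) {l : α → List Edge} {L : α → List ℕ} {b u : α → ℕ} (hl : Poly l)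
    (hL : Poly L) (hb : Poly b) (hu : Poly u) :
    Poly (fun a => dom q (l a) (toF (L a)) (b a) (u a)) := by
  unfold dom
  exact Poly.decide_eq (poly_err q hl hL hb hu) (NPC.Poly.const 0)

theorem poly_pos (q : ℕ) {l : α → List Edge} {B L : α → List ℕ} {v : α → ℕ} (hl : Poly l)
    (hB : Poly B) (hL : Poly L) (hv : Poly v) :
    Poly (fun a => pos q (l a) (actv q (l a) (toF (B a))) (toF (L a)) (v a)) := by
  unfold pos
  refine Poly.filter (p := fun a c => (l a).all fun e => !decide (e.2.1 = v a) ||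
    (!actv q (l a) (toF (B a)) e.1 || (List.range q).any fun b =>
      dom q (l a) (toF (L a)) b e.1 && decide (tb e b = c))) (NPC.Poly.const _) ?_
  refine Poly.all (l := fun z : α × ℕ => l z.1) (p := fun (z : α × ℕ) (e : Edge) =>
    !decide (e.2.1 = v z.1) ||
    (!actv q (l z.1) (toF (B z.1)) e.1 || (List.range q).any fun b =>
      dom q (l z.1) (toF (L z.1)) b e.1 && decide (tb e b = z.2))) (by fun_prop) ?_
  refine Poly.or (Poly.not (by fun_prop)) (Poly.or (Poly.not ?_) ?_)
  · exact poly_actv q (by fun_prop) (by fun_prop) (by fun_prop)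
  · refine Poly.any (p := fun (z : (α × ℕ) × Edge) b =>
      dom q (l z.1.1) (toF (L z.1.1)) b z.2.1 && decide (tb z.2 b = z.1.2))
      (NPC.Poly.const _) ?_
    have h3 : Poly (fun z : ((α × ℕ) × Edge) × ℕ => tb z.1.2 z.2) :=
      poly_tb (by fun_prop) (by fun_prop)
    refine Poly.and (poly_dom q (by fun_prop) (by fun_prop) (by fun_prop) (by fun_prop)) ?_
    exact Poly.decide_eq h3 (by fun_prop)

theorem poly_headD {L : α → List ℕ} (hL : Poly L) : Poly (fun a => (L a).headD 0) := by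
  have h : Poly (fun a => ((L a).head?).getD 0) :=
    Poly.optGetD (Poly.head? hL) (NPC.Poly.const 0)
  refine h.congr fun a => ?_
  cases L a <;> rfl

theorem poly_clL (q : ℕ) {n : α → ℕ} {l : α → List Edge} {B L : α → List ℕ} (hn : UPoly n)
    (hl : Poly l) (hB : Poly B) (hL : Poly L) :
    Poly (fun a => clL (n a) q (l a) (B a) (L a)) := by
  unfold clL tab
  refine NPC.Poly.map (F := fun a v => cl q (l a) (actv q (l a) (toF (B a))) (toF (L a)) v)
    hn.range ?_
  unfold cl
  have h1 : Poly (fun z : α × ℕ => toF (L z.1) z.2) := poly_toF (by fun_prop) (by fun_prop)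
  have h2 : Poly (fun z : α × ℕ => pos q (l z.1) (actv q (l z.1) (toF (B z.1)))
      (toF (L z.1)) z.2) := poly_pos q (by fun_prop) (by fun_prop) (by fun_prop) (by fun_prop)
  refine Poly.ite (Poly.decide_lt h1 (NPC.Poly.const q)) h1 ?_
  exact Poly.ite (Poly.decide_eq (Poly.length h2) (NPC.Poly.const 1)) (poly_headD h2)
    (NPC.Poly.const q)

theorem poly_fxL (q : ℕ) {n : α → ℕ} {l : α → List Edge} {B L : α → List ℕ} (hn : UPoly n)
    (hl : Poly l) (hB : Poly B) (hL : Poly L) :
    Poly (fun a => fxL (n a) q (l a) (B a) (L a)) := by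
  unfold fxL tab
  refine NPC.Poly.map (F := fun a v => fx (n a) q (l a) (actv q (l a) (toF (B a)))
    (toF (L a)) v) hn.range ?_
  unfold fx
  have h1 : Poly (fun z : α × ℕ => toF (L z.1) z.2) := poly_toF (by fun_prop) (by fun_prop)
  have h2 : Poly (fun z : α × ℕ => pos q (l z.1) (actv q (l z.1) (toF (B z.1)))
      (toF (L z.1)) z.2) := poly_pos q (by fun_prop) (by fun_prop) (by fun_prop) (by fun_prop)
  refine Poly.ite (Poly.decide_lt h1 (NPC.Poly.const q)) h1 ?_
  refine Poly.ite (Poly.decide_bool ?_) (poly_headD h2) (NPC.Poly.const q)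
  refine Poly.all (p := fun (z : α × ℕ) w => decide (z.2 ≤ w) || decide (toF (L z.1) w < q))
    (hn.comp (Poly.fst Poly.id)).range ?_
  refine Poly.or (Poly.decide_le (by fun_prop) (by fun_prop)) ?_
  exact Poly.decide_lt (poly_toF (by fun_prop) (by fun_prop)) (NPC.Poly.const q)

theorem poly_grL (q : ℕ) {n : α → ℕ} {l : α → List Edge} {B L : α → List ℕ} (hn : UPoly n)
    (hl : Poly l) (hB : Poly B) (hL : Poly L) :
    Poly (fun a => grL (n a) q (l a) (B a) (L a)) := by
  unfold grL
  exact Poly.ite (Poly.decide_eq (poly_clL q hn hl hB hL) hL) (poly_fxL q hn hl hB hL)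
    (poly_clL q hn hl hB hL)

theorem headD_le (q : ℕ) (l : List Edge) (A : ℕ → Bool) (F : ℕ → ℕ) (v : ℕ) :
    (pos q l A F v).headD 0 ≤ q := by
  rcases Nat.eq_zero_or_pos q with h | h
  · subst h
    have : pos 0 l A F v = [] := by simp [pos]
    rw [this]
    rfl
  · exact (headD_lt h A F v).le

theorem Sm_tab {n q : ℕ} {F : ℕ → ℕ} (h : ∀ v, F v ≤ q) : Sm n q (tab n F) := by
  refine ⟨tab_len F, fun z hz => ?_⟩
  unfold tab at hz
  obtain ⟨u, _, rfl⟩ := List.mem_map.1 hz
  exact h u

theorem Sm_st2L (n q : ℕ) (l : List Edge) (L : List ℕ) : Sm n q (st2L n q l L) :=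
  Sm_tab fun v => st2_le _ v

theorem Sm_clL (n q : ℕ) (l : List Edge) (B L : List ℕ) : Sm n q (clL n q l B L) :=
  Sm_tab fun v => by
    unfold cl
    have := headD_le q l (actv q l (toF B)) (toF L) v
    split_ifs <;> omega

theorem Sm_fxL (n q : ℕ) (l : List Edge) (B L : List ℕ) : Sm n q (fxL n q l B L) :=
  Sm_tab fun v => by
    unfold fx
    have := headD_le q l (actv q l (toF B)) (toF L) v
    split_ifs <;> omega

theorem Sm_grL (n q : ℕ) (l : List Edge) (B L : List ℕ) : Sm n q (grL n q l B L) := by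
  unfold grL
  split_ifs
  · exact Sm_fxL n q l B L
  · exact Sm_clL n q l B L

/-- Iterations of an operator with small values. -/
theorem poly_itL (q : ℕ) {n : α → ℕ} {L : α → List ℕ} {g : α → List ℕ → List ℕ} (hn : UPoly n)
    (hL : Poly L) (hg : Poly (fun p : α × List ℕ => g p.1 p.2))
    (hs : ∀ a L, Sm (n a) q (g a L)) : Poly (fun a => (g a)^[n a] (L a)) := by
  obtain ⟨p1, hp1⟩ := uPoly_le hn
  obtain ⟨p2, hp2⟩ := NPC.Poly.sz_le hL
  refine iterU hn hL (F := g) hg (p1 * Polynomial.C (4 * q + 2) + Polynomial.C 1 + p2)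
    fun a k hk => ?_
  simp only [Polynomial.eval_mul, Polynomial.eval_add, Polynomial.eval_C]
  have h1 := hp1 a
  have h2 := hp2 a
  cases k with
  | zero =>
    simp only [Function.iterate_zero, id_eq]
    omega
  | succ k =>
    rw [Function.iterate_succ_apply']
    have h3 := hs a ((g a)^[k] (L a))
    have h4 := nat_list_sz h3.1.le h3.2
    have h5 := Nat.mul_le_mul_right (4 * q + 2) h1
    omega

theorem poly_ph2 (q : ℕ) {n : α → ℕ} {l : α → List Edge} {L : α → List ℕ} (hn : UPoly n)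
    (hl : Poly l) (hL : Poly L) : Poly (fun a => ph2 (n a) q (l a) (L a)) := by
  unfold ph2
  exact poly_itL q hn hL (g := fun a L => st2L (n a) q (l a) L)
    (poly_st2L q (hn.comp (Poly.fst Poly.id)) (by fun_prop) (Poly.snd Poly.id))
    fun a L => Sm_st2L _ _ _ _

theorem poly_ph3 (q : ℕ) {n : α → ℕ} {l : α → List Edge} {B L : α → List ℕ} (hn : UPoly n)
    (hl : Poly l) (hB : Poly B) (hL : Poly L) : Poly (fun a => ph3 (n a) q (l a) (B a) (L a)) := by
  unfold ph3
  exact poly_itL q hn hL (g := fun a L => clL (n a) q (l a) (B a) L)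
    (poly_clL q (hn.comp (Poly.fst Poly.id)) (by fun_prop) (by fun_prop) (Poly.snd Poly.id))
    fun a L => Sm_clL _ _ _ _ _

theorem poly_ph4 (q : ℕ) {n : α → ℕ} {l : α → List Edge} {L : α → List ℕ} (hn : UPoly n)
    (hl : Poly l) (hL : Poly L) : Poly (fun a => ph4 (n a) q (l a) (L a)) := by
  unfold ph4
  exact poly_itL q hn hL (g := fun a L' => grL (n a) q (l a) (L a) L')
    (poly_grL q (hn.comp (Poly.fst Poly.id)) (by fun_prop) (by fun_prop) (Poly.snd Poly.id))
    fun a L => Sm_grL _ _ _ _ _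

theorem poly_fin (q : ℕ) {n : α → ℕ} {l : α → List Edge} {y : α → List ℕ} {v0 c0 : α → ℕ}
    (hn : UPoly n) (hl : Poly l) (hy : Poly y) (hv : Poly v0) (hc : Poly c0) :
    Poly (fun a => fin (n a) q (l a) (y a) (v0 a) (c0 a)) := by
  unfold fin
  have h1 := poly_ph2 q hn hl hy
  have h2 := poly_ph3 q hn hl h1 h1
  refine poly_ph4 q hn hl (poly_ph3 q hn hl h1 ?_)
  unfold tab
  refine NPC.Poly.map (F := fun a v => upd (toF (ph3 (n a) q (l a) (ph2 (n a) q (l a) (y a))
    (ph2 (n a) q (l a) (y a)))) (v0 a) (c0 a) v) hn.range ?_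
  unfold upd
  refine Poly.ite (Poly.decide_eq (by fun_prop) (by fun_prop)) (by fun_prop) ?_
  exact poly_toF (h2.comp (Poly.fst Poly.id)) (Poly.snd Poly.id)

end Pol

theorem poly_listL (K T cB e q : ℕ) : Poly (fun a : Dt => listL K T cB e (nn a) q a.2) := by
  have hlen : UPoly (fun a : Dt => a.2.length) := UPoly.length (Poly.snd Poly.id)
  have hT : UPoly (fun a : Dt => a.2.length + T) := UPoly.add hlen (UPoly.const T)
  have h : Poly (fun a : Dt => (List.range (a.2.length + T + 1)).flatMap fun L =>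
      (tupA K (trip (nn a * q) (cB * a.2.length ^ e))).map fun ts =>
        candL (nn a) q a.2 (min L (a.2.length + T)) ts) := by
    refine NPC.Poly.flatMap (F := fun (a : Dt) (L : ℕ) =>
      (tupA K (trip (nn a * q) (cB * a.2.length ^ e))).map fun ts =>
        candL (nn a) q a.2 (min L (a.2.length + T)) ts)
      (UPoly.add hT (UPoly.const 1)).range ?_
    refine NPC.Poly.map (F := fun (p : Dt × ℕ) (ts : List (ℕ × ℕ × ℕ)) =>
      candL (nn p.1) q p.1.2 (min p.2 (p.1.2.length + T)) ts) ?_ ?_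
    · refine (poly_tupA K (poly_trip (UPoly.mul uPoly_nn (UPoly.const q))
        (UPoly.mul (UPoly.const cB) (uPoly_pow hlen e)))).comp (Poly.fst Poly.id)
    · exact poly_candL q (uPoly_nn.comp (Poly.fst (Poly.fst Poly.id))) (by fun_prop)
        (uPoly_min (by fun_prop) (hT.comp (Poly.fst (Poly.fst Poly.id)))) (Poly.snd Poly.id)
  refine h.congr fun a => ?_
  unfold listL
  refine List.flatMap_congr fun L hL => ?_
  rw [List.mem_range] at hL
  rw [Nat.min_eq_left (by omega)]

theorem poly_algS (K T cB e q : ℕ) : Poly (fun a : Dt => algS K T cB e (nn a) q a.2) := by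
  unfold algS
  refine poly_best (Poly.snd Poly.id) ?_
  unfold listS
  refine NPC.Poly.flatMap (F := fun (a : Dt) (c : List ℕ × List ℕ) =>
    (List.range (nn a)).flatMap fun v0 => (List.range q).map fun c0 =>
      (brL (nn a) q a.2 (fin (nn a) q a.2 c.2 v0 c0), fin (nn a) q a.2 c.2 v0 c0))
    (poly_listL K T cB e q) ?_
  refine NPC.Poly.flatMap (F := fun (p : Dt × (List ℕ × List ℕ)) (v0 : ℕ) =>
    (List.range q).map fun c0 =>
      (brL (nn p.1) q p.1.2 (fin (nn p.1) q p.1.2 p.2.2 v0 c0),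
        fin (nn p.1) q p.1.2 p.2.2 v0 c0)) (uPoly_nn.comp (Poly.fst Poly.id)).range ?_
  refine NPC.Poly.map (F := fun (p : (Dt × (List ℕ × List ℕ)) × ℕ) (c0 : ℕ) =>
    (brL (nn p.1.1) q p.1.1.2 (fin (nn p.1.1) q p.1.1.2 p.1.2.2 p.2 c0),
      fin (nn p.1.1) q p.1.1.2 p.1.2.2 p.2 c0)) (NPC.Poly.const _) ?_
  have hn : UPoly (fun z : ((Dt × (List ℕ × List ℕ)) × ℕ) × ℕ => nn z.1.1.1) :=
    uPoly_nn.comp (Poly.fst (Poly.fst (Poly.fst Poly.id)))
  have h1 : Poly (fun z : ((Dt × (List ℕ × List ℕ)) × ℕ) × ℕ =>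
      fin (nn z.1.1.1) q z.1.1.1.2 z.1.1.2.2 z.1.2 z.2) :=
    poly_fin q hn (by fun_prop) (by fun_prop) (by fun_prop) (by fun_prop)
  exact Poly.pair (poly_brL q hn (by fun_prop) h1) h1

/-- The algorithm as a function on bit strings. -/
theorem exists_algS (K T cB e q : ℕ) : ∃ A : List Bool → List Bool, PolyTime A ∧
    ∀ G : UGX.Game, A (bits G) = bits (algS K T cB e (nn G) q G.2) := by
  refine ⟨_, polyTime_opt (g := fun x => (unbits UGX.Game x).map fun G =>
    algS K T cB e (nn G) q G.2) ?_, fun G => ?_⟩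
  · exact Poly.optMap_fp (h := fun _ G => algS K T cB e (nn G) q G.2) poly_unbits
      ((poly_algS K T cB e q).comp (Poly.snd Poly.id))
  · simp only [unbits_bits, Option.map_some]

end Pool.Agent.K6.H49.TTS
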