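import Pool.Agent.K6.H49.LTR.Alg

/-!
# Satisfiable 2-to-1 games on expanders: the operators of the algorithm

A partial labeling of the right vertices is a function `F : ℕ → ℕ`; the value is known if it is
less than `q`, and unknown if it is `q`.
-/

set_option autoImplicit false

open Finset

namespace Pool.Agent.K6.H49.TTS

open Pool.Agent.K6.H49.UGX (Edge)
open Pool.Agent.K6.H49.UGQ
open Pool.Agent.K6.H49.LTR

/-- The number of the constraints with a property. -/
def ct (l : List Edge) (p : Edge → Bool) : ℕ := (l.filter p).length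

def degL (l : List Edge) (u : ℕ) : ℕ := ct l fun e => decide (e.1 = u)

def degR (l : List Edge) (v : ℕ) : ℕ := ct l fun e => decide (e.2.1 = v)

/-- The number of the constraints at `u` with an unknown right vertex. -/
def unk (q : ℕ) (l : List Edge) (F : ℕ → ℕ) (u : ℕ) : ℕ :=
  ct l fun e => decide (e.1 = u) && decide (q ≤ F e.2.1)

/-- The number of the constraints at `u` violated by the label `a`. -/
def err (q : ℕ) (l : List Edge) (F : ℕ → ℕ) (a u : ℕ) : ℕ :=
  ct l fun e => decide (e.1 = u) && (decide (F e.2.1 < q) && !decide (tb e a = F e.2.1))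

/-- The vertex `u` is active. -/
def actv (q : ℕ) (l : List Edge) (F : ℕ → ℕ) (u : ℕ) : Bool :=
  decide (5 * unk q l F u ≤ degL l u)

/-- The label `a` is good for `u`. -/
def inL (q : ℕ) (l : List Edge) (F : ℕ → ℕ) (a u : ℕ) : Bool :=
  decide (100 * err q l F a u ≤ degL l u)

def inact (q : ℕ) (l : List Edge) (F : ℕ → ℕ) (v : ℕ) : ℕ :=
  ct l fun e => decide (e.2.1 = v) && !actv q l F e.1

/-- The number of the votes for the label `c` of `v`. -/
def vot (q : ℕ) (l : List Edge) (F : ℕ → ℕ) (c v : ℕ) : ℕ :=
  ct l fun e => decide (e.2.1 = v) && (actv q l F e.1 &&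
    (List.range q).any fun a => inL q l F a e.1 && decide (tb e a = c))

def bad2 (q : ℕ) (l : List Edge) (F : ℕ → ℕ) (v : ℕ) : Bool :=
  decide (degR l v < 200 * inact q l F v) || (List.range q).any fun c =>
    !decide (c = F v) && decide (99 * degR l v ≤ 100 * vot q l F c v)

/-- The first operator: forget the doubtful labels. -/
def st2 (q : ℕ) (l : List Edge) (F : ℕ → ℕ) (v : ℕ) : ℕ :=
  if F v < q then (if bad2 q l F v then q else F v) else q

/-- The label `a` violates no constraint at `u`. -/
def dom (q : ℕ) (l : List Edge) (F : ℕ → ℕ) (a u : ℕ) : Bool := decide (err q l F a u = 0)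

/-- The possible labels of `v` (`A` is the set of the active left vertices). -/
def pos (q : ℕ) (l : List Edge) (A : ℕ → Bool) (F : ℕ → ℕ) (v : ℕ) : List ℕ :=
  (List.range q).filter fun c => l.all fun e => !decide (e.2.1 = v) || (!A e.1 ||
    (List.range q).any fun a => dom q l F a e.1 && decide (tb e a = c))

/-- The second operator: a unique possible label is the label. -/
def cl (q : ℕ) (l : List Edge) (A : ℕ → Bool) (F : ℕ → ℕ) (v : ℕ) : ℕ :=
  if F v < q then F v else
    (if (pos q l A F v).length = 1 then (pos q l A F v).headD 0 else q)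

/-- Set the label of `v0`. -/
def upd (F : ℕ → ℕ) (v0 c0 : ℕ) (v : ℕ) : ℕ := if v = v0 then c0 else F v

/-- The third operator: choose a possible label for the first unknown vertex. -/
def fx (n q : ℕ) (l : List Edge) (A : ℕ → Bool) (F : ℕ → ℕ) (v : ℕ) : ℕ :=
  if F v < q then F v else
    (if ((List.range n).all fun w => decide (v ≤ w) || decide (F w < q)) then
      (pos q l A F v).headD 0 else q)

/-! ### The lists -/

/-- The list of the first `n` values. -/
def tab (n : ℕ) (F : ℕ → ℕ) : List ℕ := (List.range n).map F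

def st2L (n q : ℕ) (l : List Edge) (L : List ℕ) : List ℕ := tab n (st2 q l (toF L))

/-- The active vertices are given by a list `B` of labels. -/
def clL (n q : ℕ) (l : List Edge) (B L : List ℕ) : List ℕ :=
  tab n (cl q l (actv q l (toF B)) (toF L))

def fxL (n q : ℕ) (l : List Edge) (B L : List ℕ) : List ℕ :=
  tab n (fx n q l (actv q l (toF B)) (toF L))

def grL (n q : ℕ) (l : List Edge) (B L : List ℕ) : List ℕ :=
  if clL n q l B L = L then fxL n q l B L else clL n q l B L

/-- Phase 2. -/
def ph2 (n q : ℕ) (l : List Edge) (L : List ℕ) : List ℕ := (st2L n q l)^[n] L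

/-- Phase 3 (`B` gives the activity). -/
def ph3 (n q : ℕ) (l : List Edge) (B L : List ℕ) : List ℕ := (clL n q l B)^[n] L

/-- Phase 4. -/
def ph4 (n q : ℕ) (l : List Edge) (L : List ℕ) : List ℕ := (grL n q l L)^[n] L

/-- The labeling found for a start `y` and a guess `c0` for the label of `v0`. -/
def fin (n q : ℕ) (l : List Edge) (y : List ℕ) (v0 c0 : ℕ) : List ℕ :=
  ph4 n q l (ph3 n q l (ph2 n q l y)
    (tab n (upd (toF (ph3 n q l (ph2 n q l y) (ph2 n q l y))) v0 c0)))

/-- The labelings which are tried. -/
def listS (K T cB e n q : ℕ) (l : List Edge) : List (List ℕ × List ℕ) :=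
  (listL K T cB e n q l).flatMap fun c => (List.range n).flatMap fun v0 =>
    (List.range q).map fun c0 => (brL n q l (fin n q l c.2 v0 c0), fin n q l c.2 v0 c0)

/-- The algorithm. -/
def algS (K T cB e n q : ℕ) (l : List Edge) : List ℕ × List ℕ := best l (listS K T cB e n q l)

end Pool.Agent.K6.H49.TTS
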