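import Pool.Agent.K6.H49.TTS.Mx

/-!
# A good start is in the list
-/

set_option autoImplicit false

open Finset

namespace Pool.Agent.K6.H49.TTS

open Pool.Agent.K6.H49.UGX (Edge)
open Pool.Agent.K6.H49.UGQ
open Pool.Agent.K6.H49.UGS (At_norm)
open Pool.Agent.K6.H49.LTR

section Ini

variable {n d q : ℕ} {σ : ℝ} {l : List Edge} {x y : ℕ → ℕ}

/-- The image of the indicator of a solution. -/
theorem At_chi (h : Xg n d q 2 l) (hx : ∀ u < n, x u < q) (hy : ∀ v < n, y v < q)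
    (hsat : ∀ e ∈ l, tb e (x e.1) = y e.2.1) {v i : ℕ} (hv : v < n) (hi : i < q) :
    At (UGQ.ext q l) (chi q x) (v * q + i) = d * if i = y v then 1 else 0 := by
  unfold At
  rw [S_ext, ← h.right v hv, mul_comm (S _ _), ← S_mul]
  refine S_congr fun e he => ?_
  obtain ⟨hu, hw⟩ := h.lt e he
  have h1 : ∀ j ∈ range q, (if e.2.1 * q + tb e j = v * q + i then chi q x (e.1 * q + j)
      else 0) = if j = x e.1 then (if e.2.1 * q + tb e j = v * q + i then (1 : ℝ) else 0)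
        else 0 := by
    intro j hj
    rw [chi_node x (mem_range.1 hj)]
    split_ifs <;> rfl
  simp only
  rw [sum_congr rfl h1, sum_ite_eq', if_pos (mem_range.2 (hx _ hu)), hsat e he]
  have h2 := UGS.node_inj (u := e.2.1) (v := v) (hy _ hw) hi
  by_cases h3 : e.2.1 = v
  · rw [if_pos h3, mul_one]
    by_cases h4 : i = y v
    · rw [if_pos (h2.2 ⟨h3, by rw [h3, h4]⟩), if_pos h4]
    · rw [if_neg fun h5 => h4 (by rw [← (h2.1 h5).2, h3]), if_neg h4]
  · rw [if_neg h3, mul_zero, if_neg fun h5 => h3 (h2.1 h5).1]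

/-- **A good start is in the list.** -/
theorem exists_start (h : Xg n d q 2 l) (hs : 0 ≤ σ) (hk : Lr n d 1 σ l) (hq : 0 < q)
    {Q K C T : ℕ} (hQ : 0 < Q) (hQs : 16 * σ * Q ≤ 1) (hK : 4 * 2 ^ 2 * (1 * q) * Q ^ 2 ≤ K)
    (hC : ∀ (N : ℕ) (β : ℕ → ℕ → ℝ), 0 < N →
      ∃ j : ℕ → ℕ, (∀ i < K, j i < N) ∧ ∃ c : ℕ → ℕ → ℝ, (∀ r < N, ∀ i < K, |c r i| ≤ C) ∧
      ∀ r < N, ∀ t < K, β r t = ∑ i ∈ range K, c r i * β (j i) t)
    (hT : 2 * K * C * q * Q ≤ T) (hx : ∀ u < n, x u < q) (hy : ∀ v < n, y v < q)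
    (hsat : ∀ e ∈ l, tb e (x e.1) = y e.2.1) :
    ∃ c ∈ listL K T (C * q * (2 * (K + 1) * Q) * 2 ^ (Q * 2) * (Q * 2) ^ T + 1) (Q * 2 + 2)
      n q l, (∀ v < n, toF c.2 v < q) ∧ nd n y (toF c.2) ≤ 24 / Q * n := by
  have hn : (0 : ℝ) < n := by exact_mod_cast h.npos
  have hn1 : (1 : ℝ) ≤ n := by exact_mod_cast h.npos
  have hd : (0 : ℝ) < d := by exact_mod_cast h.dpos
  have hd1 : (1 : ℝ) ≤ d := by exact_mod_cast h.dpos
  have hQ' : (0 : ℝ) < Q := by exact_mod_cast hQ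
  obtain ⟨c, hc, -, hlt, ψ, μ, p, t, hb, hp, hmax, ht⟩ := exists_cand h hs hk (by norm_num) hq
    (Qm := Q) (Q := Q) le_rfl hQ (by push_cast; linarith) hK hC hT hx
  refine ⟨c, hc, hlt, ?_⟩
  set E := UGQ.ext q l with hE
  have hE' := extD_lt h
  have hμ0 := muB_nonneg hE' hb
  have hμ1 := muD_le h hb
  set a : Fin (n * q) → ℝ := fun k => ∑ u ∈ range n, ψ k (u * q + x u) with ha
  have hexp := chi_exp hb hx
  have hsum : ∑ k, a k ^ 2 = n := by
    rw [← parseval hb a, ← chi_norm hx]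
    exact sum_congr rfl fun s hs => by rw [hexp s (mem_range.1 hs)]
  have h2 := err_le hQ' (sq_nonneg (d : ℝ)) hμ0 hμ1 a t ht
  have h3 : (∑ k, if 4 * (d : ℝ) ^ 2 ≤ Q * μ k then 0 else a k ^ 2) ≤ n := by
    rw [← hsum]
    refine sum_le_sum fun k _ => ?_
    split_ifs
    · exact sq_nonneg _
    · exact le_rfl
  have h4 : ∑ k, μ k * (a k - t k) ^ 2 ≤ 12 * (d ^ 2 * n) / Q := by
    refine h2.trans ?_
    have e1 : 8 * (d : ℝ) ^ 2 / Q * (∑ k, if 4 * (d : ℝ) ^ 2 ≤ Q * μ k then 0 else a k ^ 2) ≤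
        8 * d ^ 2 / Q * n := mul_le_mul_of_nonneg_left h3 (by positivity)
    have e2 : 2 * (((2 : ℕ) : ℝ) * (d : ℝ) ^ 2) * (1 / (Q * d)) ≤ 4 * (d ^ 2 * n) / Q := by
      rw [mul_one_div, div_le_div_iff₀ (by positivity) hQ']
      push_cast
      have e3 : (1 : ℝ) ≤ n * d := by nlinarith
      have e4 : 0 ≤ 4 * (d : ℝ) ^ 2 * Q := by positivity
      nlinarith
    have e3 : 8 * (d : ℝ) ^ 2 / Q * n + 4 * (d ^ 2 * n) / Q = 12 * (d ^ 2 * n) / Q := by
      field_simp
      ring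
    linarith
  have hρ : ∀ s < n * q, (fun r => chi q x r - p r) s = ∑ k, (a k - t k) * ψ k s := by
    intro s hs
    beta_reduce
    rw [hexp s hs, hp s hs, ← sum_sub_distrib]
    exact sum_congr rfl fun k _ => by ring
  have hnorm := At_norm hE' hb hρ
  have h5 : (d : ℝ) ^ 2 / 2 * nd n y (toF c.2) ≤
      ∑ s ∈ range (n * q), At E (fun r => chi q x r - p r) s ^ 2 := by
    rw [sum_node, nd, mul_sum]
    refine sum_le_sum fun v hv => ?_
    rw [mem_range] at hv
    split_ifs with h6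
    · rw [mul_zero]
      exact sum_nonneg fun i _ => sq_nonneg _
    · rw [mul_one]
      have h7 : At E (fun r => chi q x r - p r) (v * q + y v) ^ 2 +
          At E (fun r => chi q x r - p r) (v * q + toF c.2 v) ^ 2 ≤
          ∑ i ∈ range q, At E (fun r => chi q x r - p r) (v * q + i) ^ 2 := by
        rw [← sum_pair (f := fun i => At E (fun r => chi q x r - p r) (v * q + i) ^ 2) h6]
        refine sum_le_sum_of_subset_of_nonneg ?_ fun i _ _ => sq_nonneg _
        intro i hi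
        rw [mem_insert, mem_singleton] at hi
        rcases hi with rfl | rfl
        · exact mem_range.2 (hy v hv)
        · exact mem_range.2 (hlt v hv)
      refine le_trans ?_ h7
      have e1 := hmax v hv (y v) (hy v hv)
      have e2 := At_chi h hx hy hsat hv (hy v hv)
      have e3 := At_chi h hx hy hsat hv (hlt v hv)
      rw [if_pos rfl, mul_one] at e2
      rw [if_neg fun h' => h6 h'.symm, mul_zero] at e3
      rw [At_sub, At_sub, e2, e3]
      generalize At E p (v * q + y v) = α at e1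
      generalize At E p (v * q + toF c.2 v) = β at e1
      have e4 : (d : ℝ) ^ 2 ≤ ((d - α) - (0 - β)) ^ 2 :=
        pow_le_pow_left₀ hd.le (by linarith) 2
      nlinarith [sq_nonneg ((d - α) + (0 - β))]
  rw [hnorm] at h5
  have h6 := h5.trans h4
  have h7 : 24 / Q * (n : ℝ) = 2 / d ^ 2 * (12 * (d ^ 2 * n) / Q) := by
    field_simp
    ring
  rw [h7]
  have h8 : nd n y (toF c.2) = 2 / (d : ℝ) ^ 2 * ((d : ℝ) ^ 2 / 2 * nd n y (toF c.2)) := by
    field_simp
  rw [h8]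
  exact mul_le_mul_of_nonneg_left h6 (by positivity)

theorem listL_len {K T cB e : ℕ} {c : List ℕ × List ℕ} (hc : c ∈ listL K T cB e n q l) :
    c.2.length = n := by
  unfold listL at hc
  rw [List.mem_flatMap] at hc
  obtain ⟨L, _, hc⟩ := hc
  rw [List.mem_map] at hc
  obtain ⟨ts, _, rfl⟩ := hc
  simp [candL, newL]

theorem nd_nm (y y' : ℕ → ℕ) : nm n (fun v => y' v ≠ y v) = nd n y y' := by
  classical
  unfold nm nd
  refine sum_congr rfl fun v _ => ?_
  by_cases h1 : y v = y' v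
  · rw [if_pos h1, if_neg fun h2 => h2 h1.symm]
  · rw [if_neg h1, if_pos fun h2 => h1 h2.symm]

/-- The bound for the second singular value, as a bound for the threshold rank. -/
theorem lr_one (h : Xs n d q σ l) : Lr n d 1 σ l := by
  refine ⟨fun _ _ => 1, fun f g hf => ?_⟩
  have hn : (0 : ℝ) < n := by exact_mod_cast h.npos
  have hf0 : ∑ u ∈ range n, f u = 0 := by
    have := hf 0 (by norm_num)
    simpa using this
  have h1 := h.toXp.bil_le f g
  rw [S_fgt] at h1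
  simp only [fgt] at h1
  rw [hf0, zero_mul, mul_zero, sub_zero] at h1
  refine h1.trans ?_
  have hσ := h.nonneg
  refine mul_le_mul_of_nonneg_left ?_ (by positivity)
  refine mul_le_mul (Real.sqrt_le_sqrt ?_) (Real.sqrt_le_sqrt ?_) (Real.sqrt_nonneg _)
    (Real.sqrt_nonneg _)
  · simp
  · have : 0 ≤ (∑ u ∈ range n, g u) ^ 2 / n := by positivity
    linarith

end Ini

end Pool.Agent.K6.H49.TTS
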