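import Pool.Agent.K6.H49.TTS.Ph3

/-!
# Forgetting the doubtful labels
-/

set_option autoImplicit false

open Finset

namespace Pool.Agent.K6.H49.TTS

open Pool.Agent.K6.H49.UGX (Edge)
open Pool.Agent.K6.H49.UGQ
open Pool.Agent.K6.H49.LTR

/-- Some good label of the left end contradicts the label of `y` at the right end. -/
def live (q : ℕ) (l : List Edge) (y F : ℕ → ℕ) (e : Edge) : Prop :=
  ∃ a < q, inL q l F a e.1 = true ∧ tb e a ≠ y e.2.1

/-- The number of the live constraints at `u`. -/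
noncomputable def Dv (q : ℕ) (l : List Edge) (y F : ℕ → ℕ) (u : ℕ) : ℝ :=
  Ce l fun e => e.1 = u ∧ live q l y F e

/-- Almost all constraints at `v` are live. -/
def Fr (d q : ℕ) (l : List Edge) (y F : ℕ → ℕ) (v : ℕ) : Prop :=
  99 / 100 * (d : ℝ) ≤ Ce l fun e => e.2.1 = v ∧ live q l y F e

/-- Many neighbours of `v` are inactive. -/
def R1 (d q : ℕ) (l : List Edge) (F : ℕ → ℕ) (v : ℕ) : Prop :=
  (d : ℝ) < 200 * Ce l fun e => e.2.1 = v ∧ ¬ actv q l F e.1 = true

/-- Many neighbours of `u` are in `Y`. -/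
def Wy (d : ℕ) (l : List Edge) (Y : ℕ → Prop) (u : ℕ) : Prop :=
  (d : ℝ) < 100 * Ce l fun e => e.1 = u ∧ Y e.2.1

/-- `F'` knows less than `F`. -/
def Le (n q : ℕ) (F F' : ℕ → ℕ) : Prop := ∀ v < n, F' v < q → F v < q

section Ph2

variable {n d q : ℕ} {σ : ℝ} {l : List Edge} {x y y0 : ℕ → ℕ} {F F' : ℕ → ℕ}

theorem inL_mono (h : Xs n d q σ l) (hF : Ex n q F y0) (hF' : Ex n q F' y0) (hle : Le n q F F')
    {a u : ℕ} (hu : u < n) (ha : inL q l F a u = true) : inL q l F' a u = true := by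
  rw [inL_iff h hu] at ha ⊢
  refine le_trans ?_ ha
  have : Ce l (fun e => e.1 = u ∧ F' e.2.1 < q ∧ tb e a ≠ F' e.2.1) ≤
      Ce l (fun e => e.1 = u ∧ F e.2.1 < q ∧ tb e a ≠ F e.2.1) := by
    refine Ce_mono fun e he h1 => ?_
    have hv := (h.lt e he).2
    refine ⟨h1.1, hle _ hv h1.2.1, ?_⟩
    rw [hF _ hv (hle _ hv h1.2.1), ← hF' _ hv h1.2.1]
    exact h1.2.2
  linarith

theorem live_mono (h : Xs n d q σ l) (hF : Ex n q F y0) (hF' : Ex n q F' y0)
    (hle : Le n q F F') {e : Edge} (he : e ∈ l) (h1 : live q l y F e) : live q l y F' e := by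
  obtain ⟨a, ha, h2, h3⟩ := h1
  exact ⟨a, ha, inL_mono h hF hF' hle (h.lt e he).1 h2, h3⟩

theorem Fr_mono (h : Xs n d q σ l) (hF : Ex n q F y0) (hF' : Ex n q F' y0)
    (hle : Le n q F F') {v : ℕ} (h1 : Fr d q l y F v) : Fr d q l y F' v := by
  unfold Fr at h1 ⊢
  exact h1.trans (Ce_mono fun e he h2 => ⟨h2.1, live_mono h hF hF' hle he h2.2⟩)

theorem actv_mono (h : Xs n d q σ l) (hle : Le n q F F') {u : ℕ} (hu : u < n)
    (h1 : actv q l F' u = true) : actv q l F u = true := by
  rw [actv_iff h hu] at h1 ⊢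
  have : Ce l (fun e => e.1 = u ∧ q ≤ F e.2.1) ≤ Ce l (fun e => e.1 = u ∧ q ≤ F' e.2.1) := by
    refine Ce_mono fun e he h2 => ⟨h2.1, ?_⟩
    by_contra h3
    push Not at h3
    have := hle _ (h.lt e he).2 h3
    omega
  linarith

theorem R1_mono (h : Xs n d q σ l) (hle : Le n q F F') {v : ℕ} (h1 : R1 d q l F v) :
    R1 d q l F' v := by
  unfold R1 at h1 ⊢
  have : Ce l (fun e => e.2.1 = v ∧ ¬ actv q l F e.1 = true) ≤
      Ce l (fun e => e.2.1 = v ∧ ¬ actv q l F' e.1 = true) :=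
    Ce_mono fun e he h2 => ⟨h2.1, fun h3 => h2.2 (actv_mono h hle (h.lt e he).1 h3)⟩
  linarith

/-- The right label is good except near many wrong labels. -/
theorem x_inL (h : Xs n d q σ l) (hsat : ∀ e ∈ l, tb e (x e.1) = y e.2.1) {Y : ℕ → Prop}
    (hY : ∀ v < n, F v < q → F v ≠ y v → Y v) {u : ℕ} (hu : u < n) (hW : ¬ Wy d l Y u) :
    inL q l F (x u) u = true := by
  rw [inL_iff h hu]
  unfold Wy at hW
  push Not at hW
  refine le_trans ?_ hW
  have : Ce l (fun e => e.1 = u ∧ F e.2.1 < q ∧ tb e (x u) ≠ F e.2.1) ≤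
      Ce l (fun e => e.1 = u ∧ Y e.2.1) := by
    refine Ce_mono fun e he h1 => ⟨h1.1, hY _ (h.lt e he).2 h1.2.1 fun h2 => h1.2.2 ?_⟩
    rw [h2, ← h1.1]
    exact hsat e he
  linarith

theorem Wy_few (h : Xs n d q σ l) {Y : ℕ → Prop} (hY : nm n Y ≤ n / 1000) :
    nm n (Wy d l Y) ≤ 40000 * σ ^ 2 * nm n Y := by
  have h1 := h.manyL (A := Wy d l Y) (B := Y) (τ := 1 / 100) (by norm_num) (fun u _ h2 => by
    unfold Wy at h2
    linarith) (by
    have : (0 : ℝ) ≤ n := by positivity
    linarith)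
  linarith

/-- The live constraints at an active vertex. -/
theorem Dv_le (h : Xs n d q σ l) (hx : ∀ u < n, x u < q)
    (hsat : ∀ e ∈ l, tb e (x e.1) = y e.2.1) {Y : ℕ → Prop}
    (hY : ∀ v < n, F v < q → F v ≠ y v → Y v) {u : ℕ} (hu : u < n) (hW : ¬ Wy d l Y u)
    (hA : actv q l F u = true) :
    Dv q l y F u ≤ Ce l (fun e => e.1 = u ∧ q ≤ F e.2.1) + d / 50 := by
  have hd : (0 : ℝ) < d := by exact_mod_cast h.dpos
  have hxL := x_inL h hsat hY hu hW
  by_cases hex : ∃ b < q, inL q l F b u = true ∧ b ≠ x u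
  · obtain ⟨b, hb, hbL, hne⟩ := hex
    have h1 : Dv q l y F u ≤ df l u (x u) b := by
      refine Ce_mono fun e he h2 => ⟨h2.1, ?_⟩
      obtain ⟨a, ha, h3, h4⟩ := h2.2
      rw [h2.1] at h3
      have n1 : x u ≠ a := by
        intro h5
        rw [← h5, ← h2.1] at h4
        exact h4 (hsat e he)
      have h6 : b = a := two_good h hu hA (hx u hu) hb ha hxL hbL h3 hne.symm n1
      rw [h6]
      intro h7
      rw [← h7, ← h2.1] at h4
      exact h4 (hsat e he)
    have h2 := df_le (q := q) (l := l) F u (x u) b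
    rw [inL_iff h hu] at hxL hbL
    linarith
  · push Not at hex
    have h1 : Dv q l y F u ≤ 0 := by
      by_contra hcon
      push Not at hcon
      obtain ⟨e, he, h2, a, ha, h3, h4⟩ := Ce_pos hcon
      rw [h2] at h3
      rw [hex a ha h3, ← h2] at h4
      exact h4 (hsat e he)
    have h2 := Ce_nonneg (l := l) fun e => e.1 = u ∧ q ≤ F e.2.1
    have : (0 : ℝ) ≤ d / 50 := by positivity
    linarith

/-- The lists with two labels do not change. -/
theorem Dv_stable (h : Xs n d q σ l) (hx : ∀ u < n, x u < q)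
    (hsat : ∀ e ∈ l, tb e (x e.1) = y e.2.1) {Y : ℕ → Prop}
    (hY : ∀ v < n, F' v < q → F' v ≠ y v → Y v) (hF : Ex n q F y0) (hF' : Ex n q F' y0)
    (hle : Le n q F F') {u : ℕ} (hu : u < n) (hW : ¬ Wy d l Y u)
    (hA : actv q l F' u = true) (hpos : 0 < Dv q l y F u) :
    Dv q l y F' u ≤ Dv q l y F u := by
  obtain ⟨e0, he0, h1, b, hb, hbL, hb2⟩ := Ce_pos hpos
  rw [h1] at hbL
  have hbL' := inL_mono h hF hF' hle hu hbL
  have hxL := x_inL h hsat hY hu hW
  have n1 : x u ≠ b := by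
    intro h5
    rw [← h5, ← h1] at hb2
    exact hb2 (hsat e0 he0)
  refine Ce_mono fun e he h2 => ⟨h2.1, ?_⟩
  obtain ⟨a, ha, h3, h4⟩ := h2.2
  rw [h2.1] at h3
  have n2 : x u ≠ a := by
    intro h5
    rw [← h5, ← h2.1] at h4
    exact h4 (hsat e he)
  have h6 : b = a := two_good h hu hA (hx u hu) hb ha hxL hbL' h3 n1 n2
  refine ⟨b, hb, ?_, by rw [h6]; exact h4⟩
  rw [h2.1]
  exact hbL

/-- **Stability of the ambiguous vertices.** -/
theorem stab (h : Xs n d q σ l) (hσ : σ ≤ 1 / 8000) (hx : ∀ u < n, x u < q)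
    (hsat : ∀ e ∈ l, tb e (x e.1) = y e.2.1) {Y : ℕ → Prop} (hYn : nm n Y ≤ n / 1000)
    (hYF : ∀ v < n, F v < q → F v ≠ y v → Y v) (hYF' : ∀ v < n, F' v < q → F' v ≠ y v → Y v)
    (hF : Ex n q F y0) (hF' : Ex n q F' y0) (hle : Le n q F F')
    (hXF : nm n (fun v => q ≤ F v) ≤ 22 / 1000 * n) (hXF' : nm n (fun v => q ≤ F' v) ≤ n / 20)
    (hFr : (n : ℝ) / 50 ≤ nm n (Fr d q l y F)) : nm n (Fr d q l y F') ≤ 47 / 1000 * n := by
  classical
  have hn : (0 : ℝ) < n := by exact_mod_cast h.npos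
  have hd : (0 : ℝ) < d := by exact_mod_cast h.dpos
  have hσ0 := h.nonneg
  set U : ℕ → Prop := fun u => Dv q l y F u = 0 with hU
  -- the vertices without live constraints are few
  have hUn : nm n U ≤ 11 / 1000 * n := by
    set f := nm n (Fr d q l y F) with hf
    set a := nm n U with ha
    have ha0 : 0 ≤ a := nm_nonneg _
    have hf0 : 0 < f := lt_of_lt_of_le (by positivity) hFr
    have han : a ≤ n := nm_le _
    have h1 := (abs_le.1 (h.emix U (Fr d q l y F))).1
    rw [← ha, ← hf] at h1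
    have h2 : Ce l (fun e => U e.1 ∧ Fr d q l y F e.2.1) ≤ 1 / 100 * d * f := by
      rw [Ce_right h.ltR]
      have h3 : ∀ v < n, Ce l (fun e => e.2.1 = v ∧ U e.1 ∧ Fr d q l y F e.2.1) ≤
          1 / 100 * d * if Fr d q l y F v then 1 else 0 := by
        intro v hv
        by_cases h4 : Fr d q l y F v
        · rw [if_pos h4, mul_one]
          have h5 : Ce l (fun e => e.2.1 = v ∧ U e.1 ∧ Fr d q l y F e.2.1) +
              Ce l (fun e => e.2.1 = v ∧ live q l y F e) ≤ d := by
            rw [← h.Ce_dR hv]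
            unfold Ce
            rw [← S_add]
            refine S_le fun e he => ?_
            by_cases h6 : e.2.1 = v
            · by_cases h7 : live q l y F e
              · have h8 : ¬ U e.1 := by
                  intro h9
                  have h10 : (1 : ℝ) ≤ Dv q l y F e.1 := Ce_one_le he ⟨rfl, h7⟩
                  have h11 : Dv q l y F e.1 = 0 := h9
                  rw [h11] at h10
                  norm_num at h10
                rw [if_neg fun h9 => h8 h9.2.1, if_pos ⟨h6, h7⟩, if_pos h6]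
                norm_num
              · rw [if_neg fun h9 : e.2.1 = v ∧ live q l y F e => h7 h9.2, if_pos h6]
                split_ifs <;> norm_num
            · rw [if_neg fun h9 : e.2.1 = v ∧ U e.1 ∧ Fr d q l y F e.2.1 => h6 h9.1,
                if_neg fun h9 : e.2.1 = v ∧ live q l y F e => h6 h9.1, if_neg h6]
              norm_num
          unfold Fr at h4
          linarith
        · rw [if_neg h4, mul_zero]
          by_contra hcon
          push Not at hcon
          obtain ⟨e, _, h5, h6, h7⟩ := Ce_pos hcon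
          rw [h5] at h7
          exact h4 h7
      have h4 := sum_le_sum fun v (hv : v ∈ range n) => h3 v (mem_range.1 hv)
      rw [← mul_sum] at h4
      exact h4
    have h5 : √(a * f) ≤ 8 * f := by
      rw [Real.sqrt_le_left (by positivity)]
      have h6 : a ≤ 50 * f := by linarith
      nlinarith
    have h6 : σ * d * √(a * f) ≤ σ * d * (8 * f) := mul_le_mul_of_nonneg_left h5 (by positivity)
    have h7 : d * f * (a / n) ≤ d * f * (1 / 100 + 8 * σ) := by
      have h8 : (d : ℝ) / n * (a * f) = d * f * (a / n) := by ring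
      rw [h8] at h1
      linarith
    have h8 : a / n ≤ 1 / 100 + 8 * σ := le_of_mul_le_mul_left h7 (by positivity)
    rw [div_le_iff₀ hn] at h8
    refine h8.trans (mul_le_mul_of_nonneg_right (by linarith) hn.le)
  have hWn : nm n (Wy d l Y) ≤ 40 * σ ^ 2 * n := by
    refine (Wy_few h hYn).trans ?_
    have := mul_le_mul_of_nonneg_left hYn (by positivity : 0 ≤ 40000 * σ ^ 2)
    linarith
  have hIn : nm n (fun u => ¬ actv q l F' u = true) ≤ 5 * σ ^ 2 * n := by
    refine (inact_few h F' (by linarith)).trans ?_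
    have := mul_le_mul_of_nonneg_left hXF' (by positivity : 0 ≤ 100 * σ ^ 2)
    linarith
  -- the live constraints
  have hpt : ∀ u < n, Dv q l y F' u ≤ d * (if Wy d l Y u then 1 else 0) +
      d * (if ¬ actv q l F' u = true then 1 else 0) + 22 / 100 * d * (if U u then 1 else 0) +
      Ce l (fun e => e.1 = u ∧ q ≤ F e.2.1) + d / 50 := by
    intro u hu
    have p1 : (0 : ℝ) ≤ d * (if Wy d l Y u then 1 else 0) := by
      split_ifs <;> simp
    have p2 : (0 : ℝ) ≤ d * (if ¬ actv q l F' u = true then 1 else 0) := by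
      split_ifs <;> simp
    have p3 : (0 : ℝ) ≤ 22 / 100 * d * (if U u then 1 else 0) := by
      split_ifs
      · positivity
      · simp
    have p4 := Ce_nonneg (l := l) fun e => e.1 = u ∧ q ≤ F e.2.1
    have p5 : (0 : ℝ) ≤ d / 50 := by positivity
    have hDd : Dv q l y F' u ≤ d := by
      rw [← h.Ce_dL hu]
      exact Ce_mono fun e _ h1 => h1.1
    by_cases h1 : Wy d l Y u
    · rw [if_pos h1] at p1 ⊢
      linarith
    by_cases h2 : actv q l F' u = true
    swap
    · rw [if_pos h2] at p2 ⊢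
      linarith
    by_cases h3 : U u
    · rw [if_pos h3] at p3 ⊢
      have h4 := Dv_le h hx hsat hYF' hu h1 h2
      rw [actv_iff h hu] at h2
      linarith
    · have h4 : 0 < Dv q l y F u := lt_of_le_of_ne (Ce_nonneg _) (Ne.symm h3)
      have h5 := Dv_stable h hx hsat hYF' hF hF' hle hu h1 h2 h4
      have h6 := Dv_le h hx hsat hYF hu h1 (actv_mono h hle hu h2)
      linarith
  have hsum := sum_le_sum fun u (hu : u ∈ range n) => hpt u (mem_range.1 hu)
  have e1 : ∑ u ∈ range n, Dv q l y F' u = Ce l (live q l y F') := (Ce_left h.ltL _).symm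
  have e2 : ∑ u ∈ range n, (d * (if Wy d l Y u then (1 : ℝ) else 0) +
      d * (if ¬ actv q l F' u = true then 1 else 0) + 22 / 100 * d * (if U u then 1 else 0) +
      Ce l (fun e => e.1 = u ∧ q ≤ F e.2.1) + d / 50) =
      d * nm n (Wy d l Y) + d * nm n (fun u => ¬ actv q l F' u = true) +
      22 / 100 * d * nm n U + d * nm n (fun v => q ≤ F v) + d / 50 * n := by
    rw [sum_add_distrib, sum_add_distrib, sum_add_distrib, sum_add_distrib, ← mul_sum, ← mul_sum,
      ← mul_sum, ← Ce_left h.ltL, h.Ce_R fun v => q ≤ F v, sum_const, card_range, nsmul_eq_mul]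
    unfold nm
    rw [mul_comm (n : ℝ)]
    congr 5
    exact sum_congr rfl fun u _ => by congr
  rw [e1, e2] at hsum
  have h3 : 99 / 100 * (d : ℝ) * nm n (Fr d q l y F') ≤ Ce l (live q l y F') := by
    rw [Ce_right h.ltR]
    exact nm_markov (fun v _ => Ce_nonneg _) fun v _ h4 => h4
  have h4 : (d : ℝ) * (99 / 100 * nm n (Fr d q l y F')) ≤ d * (nm n (Wy d l Y) +
      nm n (fun u => ¬ actv q l F' u = true) + 22 / 100 * nm n U +
      nm n (fun v => q ≤ F v) + n / 50) := by linarith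
  have h5 := le_of_mul_le_mul_left h4 hd
  have h6 : 45 * σ ^ 2 * n ≤ 1 / 1000 * n := by
    refine mul_le_mul_of_nonneg_right ?_ hn.le
    nlinarith
  linarith

/-- One step of the first operator. -/
theorem st2_un (h : Xs n d q σ l) (hF : Ex n q F y0) (hF' : ∀ v < n, F' v = st2 q l F v)
    {v : ℕ} (hv : v < n) (h1 : q ≤ F' v) (h2 : F v < q) (h3 : y0 v = y v) :
    R1 d q l F v ∨ Fr d q l y F v := by
  rw [hF' v hv] at h1
  unfold st2 at h1
  rw [if_pos h2] at h1
  by_cases hb : bad2 q l F v = true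
  swap
  · rw [if_neg hb] at h1
    omega
  rw [bad2_iff h hv] at hb
  rcases hb with hb | ⟨c, hc, hne, hb⟩
  · exact Or.inl hb
  · right
    unfold Fr
    have h4 : Ce l (fun e => e.2.1 = v ∧ actv q l F e.1 = true ∧
        ∃ a < q, inL q l F a e.1 = true ∧ tb e a = c) ≤
        Ce l (fun e => e.2.1 = v ∧ live q l y F e) := by
      refine Ce_mono fun e _ h5 => ⟨h5.1, ?_⟩
      obtain ⟨h6, _, a, ha, h7, h8⟩ := h5
      refine ⟨a, ha, h7, ?_⟩
      rw [h8, h6, ← h3, ← hF v hv h2]
      exact hne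
    linarith

theorem st2_sub (hF : Ex n q F y0) (hF' : ∀ v < n, F' v = st2 q l F v) :
    Ex n q F' y0 ∧ Le n q F F' := by
  have key : ∀ v < n, F' v < q → F v < q ∧ F' v = F v := by
    intro v hv h1
    rw [hF' v hv] at h1 ⊢
    unfold st2 at h1 ⊢
    split_ifs at h1 ⊢ with h2 h3
    · exact absurd h1 (lt_irrefl _)
    · exact ⟨h2, rfl⟩
    · exact absurd h1 (lt_irrefl _)
  exact ⟨fun v hv h1 => by rw [(key v hv h1).2]; exact hF v hv (key v hv h1).1,
    fun v hv h1 => (key v hv h1).1⟩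

/-- The invariant. -/
structure Inv (n d q : ℕ) (l : List Edge) (y y0 : ℕ → ℕ) (F : ℕ → ℕ) : Prop where
  ex : Ex n q F y0
  un : ∀ v < n, q ≤ F v → y0 v ≠ y v ∨ R1 d q l F v ∨ Fr d q l y F v
  small : nm n (fun v => q ≤ F v) ≤ n / 20
  alt : nm n (Fr d q l y F) < n / 50 ∨ ∃ A : ℕ → ℕ, Ex n q A y0 ∧ Le n q A F ∧
    nm n (fun v => q ≤ A v) ≤ 22 / 1000 * n ∧ (n : ℝ) / 50 ≤ nm n (Fr d q l y A)

theorem inv_step (h : Xs n d q σ l) (hσ : σ ≤ 1 / 8000) (hx : ∀ u < n, x u < q)
    (hsat : ∀ e ∈ l, tb e (x e.1) = y e.2.1)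
    (hYn : nm n (fun v => y0 v ≠ y v) ≤ n / 1000) (hI : Inv n d q l y y0 F)
    (hF' : ∀ v < n, F' v = st2 q l F v) : Inv n d q l y y0 F' := by
  have hn : (0 : ℝ) < n := by exact_mod_cast h.npos
  have hd : (0 : ℝ) < d := by exact_mod_cast h.dpos
  have hσ0 := h.nonneg
  obtain ⟨s1, s2⟩ := st2_sub (l := l) hI.ex hF'
  have hY : ∀ G : ℕ → ℕ, Ex n q G y0 → ∀ v < n, G v < q → G v ≠ y v → y0 v ≠ y v := by
    intro G hG v hv h1 h2
    rw [← hG v hv h1]
    exact h2
  -- the new unknown vertices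
  have hun : ∀ v < n, q ≤ F' v → y0 v ≠ y v ∨ R1 d q l F v ∨ Fr d q l y F v := by
    intro v hv h1
    rcases lt_or_ge (F v) q with h2 | h2
    · by_cases h3 : y0 v = y v
      · exact Or.inr (st2_un h hI.ex hF' hv h1 h2 h3)
      · exact Or.inl h3
    · exact hI.un v hv h2
  have hIn : nm n (fun u => ¬ actv q l F u = true) ≤ 5 * σ ^ 2 * n := by
    refine (inact_few h F (by linarith [hI.small])).trans ?_
    have := mul_le_mul_of_nonneg_left hI.small (by positivity : 0 ≤ 100 * σ ^ 2)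
    linarith
  have hσ2 : σ ^ 2 ≤ 1 / 64000000 := by
    have := pow_le_pow_left₀ hσ0 hσ 2
    linarith
  have hR : nm n (R1 d q l F) ≤ 1 / 10000 * n := by
    have h1 := h.manyR (A := fun u => ¬ actv q l F u = true) (B := R1 d q l F) (τ := 1 / 200)
      (by norm_num) (fun v _ h2 => by
        unfold R1 at h2
        linarith) (by
        have h3 := mul_le_mul_of_nonneg_right hσ2 hn.le
        linarith)
    have h3 : nm n (fun u => ¬ actv q l F u = true) ≤ 5 * (1 / 64000000) * n :=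
      hIn.trans (mul_le_mul_of_nonneg_right (by linarith) hn.le)
    have h2 : σ ^ 2 * nm n (fun u => ¬ actv q l F u = true) ≤
        1 / 64000000 * (5 * (1 / 64000000) * n) :=
      mul_le_mul hσ2 h3 (nm_nonneg _) (by norm_num)
    linarith
  have hcnt := nm_or3 hun
  have hsmall : nm n (fun v => q ≤ F' v) ≤ n / 20 ∧
      (nm n (Fr d q l y F) < n / 50 → nm n (fun v => q ≤ F' v) ≤ 22 / 1000 * n) := by
    constructor
    · rcases hI.alt with h1 | ⟨A, a1, a2, a3, a4⟩
      · linarith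
      · have h2 := stab h hσ hx hsat hYn (hY A a1) (hY F hI.ex) a1 hI.ex a2 a3 hI.small a4
        linarith
    · intro h1
      linarith
  refine ⟨s1, fun v hv h1 => ?_, hsmall.1, ?_⟩
  · rcases hun v hv h1 with h2 | h2 | h2
    · exact Or.inl h2
    · exact Or.inr (Or.inl (R1_mono h s2 h2))
    · exact Or.inr (Or.inr (Fr_mono h hI.ex s1 s2 h2))
  · rcases hI.alt with h1 | ⟨A, a1, a2, a3, a4⟩
    · by_cases h2 : nm n (Fr d q l y F') < n / 50
      · exact Or.inl h2
      · exact Or.inr ⟨F', s1, fun v _ h3 => h3, hsmall.2 h1, not_lt.1 h2⟩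
    · exact Or.inr ⟨A, a1, fun v hv h3 => a2 v hv (s2 v hv h3), a3, a4⟩

/-- At a fixed point the known labels are right. -/
theorem fix_exact (h : Xs n d q σ l) (hσ : σ ≤ 1 / 8000) (hy : ∀ v < n, y v < q)
    (hsat : ∀ e ∈ l, tb e (x e.1) = y e.2.1) (hx : ∀ u < n, x u < q)
    (hYn : nm n (fun v => y0 v ≠ y v) ≤ n / 1000) (hF : Ex n q F y0)
    (hfix : ∀ v < n, st2 q l F v = F v) : Ex n q F y := by
  have hn : (0 : ℝ) < n := by exact_mod_cast h.npos
  have hd : (0 : ℝ) < d := by exact_mod_cast h.dpos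
  have hσ0 := h.nonneg
  set Y : ℕ → Prop := fun v => F v < q ∧ F v ≠ y v with hY
  have hYle : nm n Y ≤ n / 1000 := by
    refine le_trans (nm_mono fun v hv h1 => ?_) hYn
    rw [← hF v hv h1.1]
    exact h1.2
  have h1 := Wy_few h hYle
  have hσ2 : σ ^ 2 ≤ 1 / 64000000 := by
    have := pow_le_pow_left₀ hσ0 hσ 2
    linarith
  have hY0 := nm_nonneg (n := n) Y
  have h2 : 40000 * σ ^ 2 * nm n Y ≤ 1 / 1600 * nm n Y :=
    mul_le_mul_of_nonneg_right (by linarith) hY0
  have h3 := h.manyR (A := Wy d l Y) (B := Y) (τ := 1 / 200) (by norm_num) (fun v hv h4 => by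
      have h5 := hfix v hv
      have h6 : ¬ bad2 q l F v = true := by
        intro h7
        unfold st2 at h5
        rw [if_pos h4.1, if_pos h7] at h5
        have := h4.1
        omega
      rw [bad2_iff h hv] at h6
      push Not at h6
      obtain ⟨h7, h8⟩ := h6
      have h9 := h8 (y v) (hy v hv) h4.2.symm
      have h10 : (d : ℝ) ≤ Ce l (fun e => e.2.1 = v ∧ ¬ actv q l F e.1 = true) +
          Ce l (fun e => e.2.1 = v ∧ actv q l F e.1 = true ∧
            ∃ a < q, inL q l F a e.1 = true ∧ tb e a = y v) +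
          Ce l (fun e => e.2.1 = v ∧ Wy d l Y e.1) := by
        rw [← h.Ce_dR hv]
        refine Ce_or3 fun e he h11 => ?_
        by_cases h12 : actv q l F e.1 = true
        · by_cases h13 : Wy d l Y e.1
          · exact Or.inr (Or.inr ⟨h11, h13⟩)
          · refine Or.inr (Or.inl ⟨h11, h12, x e.1, hx _ (h.lt e he).1, ?_, ?_⟩)
            · exact x_inL h hsat (fun v _ h14 h15 => ⟨h14, h15⟩) (h.lt e he).1 h13
            · rw [hsat e he, h11]
        · exact Or.inl ⟨h11, h12⟩
      linarith) (by linarith)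
  have h4 : nm n Y ≤ 1 / 1600 * nm n Y := by
    have h5 : 160000 * σ ^ 2 * nm n (Wy d l Y) ≤ 160000 * (1 / 64000000) * (1 / 1600 * nm n Y) :=
      mul_le_mul (by linarith) (h1.trans h2) (nm_nonneg _) (by norm_num)
    linarith
  have h5 : nm n Y < 1 := by linarith
  intro v hv h6
  by_contra h7
  exact nm_zero h5 v hv ⟨h6, h7⟩

/-- **Phase 2**: most labels are known, and they are right. -/
theorem phase2 (h : Xs n d q σ l) (hσ : σ ≤ 1 / 8000) (hx : ∀ u < n, x u < q)
    (hy : ∀ v < n, y v < q) (hsat : ∀ e ∈ l, tb e (x e.1) = y e.2.1) {L : List ℕ}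
    (hL : L.length = n) (hLq : ∀ v < n, toF L v < q)
    (hLn : nm n (fun v => toF L v ≠ y v) ≤ n / 1000) :
    Sq n q (ph2 n q l L) ∧ Ex n q (toF (ph2 n q l L)) y ∧
      nm n (fun v => q ≤ toF (ph2 n q l L) v) ≤ n / 20 := by
  classical
  have hn : (0 : ℝ) < n := by exact_mod_cast h.npos
  obtain ⟨g1, g2⟩ := ph2_fix (l := l) (L := L) ⟨hL, fun v hv => (hLq v hv).le⟩
  have h0 : nm n (fun v => q ≤ toF L v) ≤ 0 := by
    unfold nm
    refine sum_nonpos fun v hv => ?_
    rw [if_neg]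
    have := hLq v (mem_range.1 hv)
    omega
  have key : ∀ k, Inv n d q l y (toF L) (toF ((st2L n q l)^[k] L)) := by
    intro k
    induction k with
    | zero =>
      refine ⟨fun v _ _ => rfl, fun v hv h1 => ?_, ?_, ?_⟩
      · simp only [Function.iterate_zero, id_eq] at h1
        have := hLq v hv
        omega
      · simp only [Function.iterate_zero, id_eq]
        linarith
      · simp only [Function.iterate_zero, id_eq]
        by_cases h1 : nm n (Fr d q l y (toF L)) < n / 50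
        · exact Or.inl h1
        · exact Or.inr ⟨toF L, fun v _ _ => rfl, fun v _ h2 => h2, by linarith, not_lt.1 h1⟩
    | succ k ih =>
      rw [Function.iterate_succ_apply']
      exact inv_step h hσ hx hsat hLn ih fun v hv => toF_tab _ hv
  have hI := key n
  refine ⟨g1, ?_, hI.small⟩
  exact fix_exact h hσ hy hsat hx hLn hI.ex g2

end Ph2

end Pool.Agent.K6.H49.TTS
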