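import Pool.Agent.K6.H49.TTS.Ph3

/-!
# The last vertices
-/

set_option autoImplicit false

open Finset

namespace Pool.Agent.K6.H49.TTS

open Pool.Agent.K6.H49.UGX (Edge)
open Pool.Agent.K6.H49.UGQ
open Pool.Agent.K6.H49.LTR

section Ph4

variable {n d q : ℕ} {σ : ℝ} {l : List Edge} {x y : ℕ → ℕ} {F : ℕ → ℕ}

/-- There is a solution at the active vertices which extends `F`. -/
def HasSol (n q : ℕ) (l : List Edge) (A : ℕ → Bool) (F : ℕ → ℕ) : Prop :=
  ∃ x y : ℕ → ℕ, (∀ u < n, x u < q) ∧ (∀ v < n, y v < q) ∧ SolA l A x y ∧ Ex n q F y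

/-- **Flipping**: at a fixed point the solution may be changed at all unknown vertices. -/
theorem flip (h : Xs n d q σ l) {B : ℕ → ℕ} (hx : ∀ u < n, x u < q) (hy : ∀ v < n, y v < q)
    (hS : SolA l (actv q l B) x y) (hF : Ex n q F y) (hBF : ∀ v < n, B v < q → F v < q)
    (hfix : ∀ v < n, cl q l (actv q l B) F v = F v) {v1 : ℕ} (hv1 : v1 < n) (hu1 : q ≤ F v1)
    {c1 : ℕ} (hc1 : c1 ∈ pos q l (actv q l B) F v1) :
    ∃ x' y' : ℕ → ℕ, (∀ u < n, x' u < q) ∧ (∀ v < n, y' v < q) ∧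
      SolA l (actv q l B) x' y' ∧ Ex n q F y' ∧ y' v1 = c1 := by
  classical
  by_cases hcy : c1 = y v1
  · exact ⟨x, y, hx, hy, hS, hF, hcy.symm⟩
  -- another possible label for every unknown vertex
  have h1 : ∀ v, ∃ c, v < n → q ≤ F v → (c ∈ pos q l (actv q l B) F v ∧ c ≠ y v) ∧
      (v = v1 → c = c1) := by
    intro v
    by_cases hv : v < n ∧ q ≤ F v
    · by_cases hvv : v = v1
      · refine ⟨c1, fun _ _ => ⟨⟨by rw [hvv]; exact hc1, by rw [hvv]; exact hcy⟩, fun _ => rfl⟩⟩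
      · obtain ⟨c, hc, hne⟩ := fix_two h hx hy hS hF hfix hv.1 hv.2
        exact ⟨c, fun _ _ => ⟨⟨hc, hne⟩, fun h' => absurd h' hvv⟩⟩
    · exact ⟨0, fun h2 h3 => absurd ⟨h2, h3⟩ hv⟩
  choose c hc using h1
  have h2 : ∀ u, ∃ a, (u < n → a < q ∧ (actv q l B u = true → dom q l F a u = true)) ∧
      ((∃ b < q, dom q l F b u = true ∧ b ≠ x u) → a ≠ x u) := by
    intro u
    by_cases hu : ∃ b < q, dom q l F b u = true ∧ b ≠ x u
    · obtain ⟨b, hb, hb2, hb3⟩ := hu
      exact ⟨b, fun _ => ⟨hb, fun _ => hb2⟩, fun _ => hb3⟩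
    · refine ⟨x u, fun hun => ⟨hx u hun, fun hA => x_dom h hS hF hA⟩, fun h' => absurd h' hu⟩
  choose x' hx' using h2
  refine ⟨x', fun v => if F v < q then F v else c v, fun u hu => ((hx' u).1 hu).1,
    fun v hv => ?_, ?_, ?_, ?_⟩
  · beta_reduce
    split_ifs with h3
    · exact h3
    · exact ((mem_pos _ _ _ _).1 (hc v hv (not_lt.1 h3)).1.1).1
  · intro e he hA
    beta_reduce
    obtain ⟨hu, hv⟩ := h.lt e he
    obtain ⟨g1, g2⟩ := (hx' e.1).1 hu
    split_ifs with h3
    · exact (dom_iff F _ _).1 (g2 hA) e he rfl h3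
    · obtain ⟨⟨g3, g4⟩, -⟩ := hc e.2.1 hv (not_lt.1 h3)
      obtain ⟨a, ha, hda, hta⟩ := ((mem_pos _ _ _ _).1 g3).2 e he rfl hA
      have n1 : a ≠ x e.1 := by
        intro h4
        rw [h4, hS e he hA] at hta
        exact g4 hta.symm
      have n2 := (hx' e.1).2 ⟨a, ha, hda, n1⟩
      have h5 : x' e.1 = a := two_dom h hu hBF hA (hx _ hu) g1 ha (x_dom h hS hF hA) (g2 hA) hda
        n2.symm n1.symm
      rw [h5, hta]
  · intro v hv h3
    beta_reduce
    rw [if_pos h3]
  · beta_reduce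
    rw [if_neg (by omega)]
    exact (hc v1 hv1 hu1).2 rfl

/-- The third operator keeps a solution. -/
theorem gr_sol (h : Xs n d q σ l) {B L : List ℕ} (hBF : ∀ v < n, toF B v < q → toF L v < q)
    (hL : HasSol n q l (actv q l (toF B)) (toF L)) :
    HasSol n q l (actv q l (toF B)) (toF (grL n q l B L)) ∧
      ∀ v < n, toF L v < q → toF (grL n q l B L) v < q := by
  obtain ⟨x, y, hx, hy, hS, hF⟩ := hL
  have hq : 0 < q := by
    have := hy 0 h.npos
    omega
  unfold grL
  split_ifs with h1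
  · have hfix : ∀ v < n, cl q l (actv q l (toF B)) (toF L) v = toF L v := by
      intro v hv
      have h2 : toF (clL n q l B L) v = toF L v := by rw [h1]
      rw [← h2]
      exact (toF_tab _ hv).symm
    have hmono : ∀ v < n, toF L v < q → toF (fxL n q l B L) v < q := by
      intro v hv h2
      unfold fxL
      rw [toF_tab _ hv]
      unfold fx
      rw [if_pos h2]
      exact h2
    refine ⟨?_, hmono⟩
    by_cases hex : ∃ v < n, q ≤ toF L v
    · obtain ⟨v1, h2, h3, h4⟩ := first_unk hex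
      have hpos : (pos q l (actv q l (toF B)) (toF L) v1).headD 0 ∈
          pos q l (actv q l (toF B)) (toF L) v1 := by
        have h5 := y_mem_pos h hx hy hS hF h2
        generalize pos q l (actv q l (toF B)) (toF L) v1 = P at h5
        cases P with
        | nil => exact absurd h5 List.not_mem_nil
        | cons c P => exact List.mem_cons_self
      obtain ⟨x', y', r1, r2, r3, r4, r5⟩ := flip h hx hy hS hF hBF hfix h2 h3 hpos
      refine ⟨x', y', r1, r2, r3, fun v hv h5 => ?_⟩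
      unfold fxL at h5 ⊢
      rw [toF_tab _ hv] at h5 ⊢
      rcases lt_or_ge (toF L v) q with h6 | h6
      · unfold fx
        rw [if_pos h6]
        exact r4 v hv h6
      · rcases Nat.lt_trichotomy v v1 with h7 | h7 | h7
        · have := h4 v h7
          omega
        · rw [h7, fx_at _ h3 h4]
          exact r5.symm
        · rw [fx_other _ h2 h3 h6 h7] at h5
          exact absurd h5 (lt_irrefl _)
    · push Not at hex
      refine ⟨x, y, hx, hy, hS, fun v hv h5 => ?_⟩
      unfold fxL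
      rw [toF_tab _ hv]
      unfold fx
      rw [if_pos (hex v hv)]
      exact hF v hv (hex v hv)
  · exact ⟨⟨x, y, hx, hy, hS, clL_Ex h hx hy hS hF⟩, fun v hv h2 => clL_mono B L hv h2⟩

theorem ph4_sol (h : Xs n d q σ l) {L : List ℕ}
    (hL : HasSol n q l (actv q l (toF L)) (toF L)) :
    HasSol n q l (actv q l (toF L)) (toF (ph4 n q l L)) := by
  unfold ph4
  have key : ∀ k, HasSol n q l (actv q l (toF L)) (toF ((grL n q l L)^[k] L)) ∧
      ∀ v < n, toF L v < q → toF ((grL n q l L)^[k] L) v < q := by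
    intro k
    induction k with
    | zero => exact ⟨hL, fun v _ h1 => h1⟩
    | succ k ih =>
      rw [Function.iterate_succ_apply']
      obtain ⟨g1, g2⟩ := gr_sol h ih.2 ih.1
      exact ⟨g1, fun v hv h1 => g2 v hv (ih.2 v hv h1)⟩
  exact (key n).1

theorem Ce_eq_S (l : List Edge) (p : Edge → Prop) [DecidablePred p] :
    Ce l p = S (fun e => if p e then 1 else 0) l := by
  classical
  exact S_congr fun e _ => by congr

/-- **Phase 4**: the violated constraints are at the inactive vertices. -/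
theorem phase4 (h : Xs n d q σ l) (hσ : σ ≤ 1 / 100) (hx : ∀ u < n, x u < q)
    (hy : ∀ v < n, y v < q) (hsat : ∀ e ∈ l, tb e (x e.1) = y e.2.1) {L : List ℕ}
    (hL : Sq n q L) (hLE : Ex n q (toF L) y)
    (hLn : nm n (fun v => q ≤ toF L v) ≤ 17 * σ ^ 2 * n) :
    (∀ v < n, toF (ph4 n q l L) v < q) ∧ ∃ x' : ℕ → ℕ, (∀ u < n, x' u < q) ∧
      V l x' (toF (ph4 n q l L)) ≤ 1700 * σ ^ 4 * (d * n) := by
  classical
  have hn : (0 : ℝ) < n := by exact_mod_cast h.npos
  have hd : (0 : ℝ) < d := by exact_mod_cast h.dpos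
  have hσ0 := h.nonneg
  have hq : 0 < q := by
    have := hy 0 h.npos
    omega
  have hlt := (ph4_fix (l := l) hq hL).2
  refine ⟨hlt, ?_⟩
  obtain ⟨x', y', hx', hy', hS', hF'⟩ := ph4_sol h ⟨x, y, hx, hy, SolA_of hsat _, hLE⟩
  refine ⟨x', hx', ?_⟩
  have h1 := inact_few h (toF L) (by
    have h2 : 17 * σ ^ 2 ≤ 1 / 10 := by nlinarith
    have h3 := mul_le_mul_of_nonneg_right h2 hn.le
    linarith)
  have h2 : V l x' (toF (ph4 n q l L)) ≤ Ce l fun e => ¬ actv q l (toF L) e.1 = true := by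
    unfold V Ce
    refine S_le fun e he => ?_
    obtain ⟨hu, hv⟩ := h.lt e he
    rw [vioD h.toXg he (hx' _ hu)]
    by_cases hA : actv q l (toF L) e.1 = true
    · rw [if_pos]
      · split_ifs <;> norm_num
      · rw [hS' e he hA, hF' _ hv (hlt _ hv)]
    · rw [if_pos hA]
      split_ifs <;> norm_num
  rw [h.Ce_L fun u => ¬ actv q l (toF L) u = true] at h2
  refine h2.trans ?_
  have h3 : nm n (fun u => ¬ actv q l (toF L) u = true) ≤ 1700 * σ ^ 4 * n := by
    refine h1.trans ?_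
    have h4 := mul_le_mul_of_nonneg_left hLn (by positivity : 0 ≤ 100 * σ ^ 2)
    have h5 : 100 * σ ^ 2 * (17 * σ ^ 2 * n) = 1700 * σ ^ 4 * n := by ring
    linarith
  have h6 := mul_le_mul_of_nonneg_left h3 hd.le
  have h7 : (d : ℝ) * (1700 * σ ^ 4 * n) = 1700 * σ ^ 4 * (d * n) := by ring
  linarith

end Ph4

end Pool.Agent.K6.H49.TTS
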