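import Pool.Agent.K6.H49.TTS.AlgP
import Pool.Agent.K6.H49.TTS.Ini
import Pool.Agent.K6.H49.TTS.Ph2
import Pool.Agent.K6.H49.TTS.Ph4

/-!
# Satisfiable 2-to-1 games on expanders
-/

set_option autoImplicit false

open Finset

namespace Pool.Agent.K6.H49.TTS

open Pool.Agent.NPC
open Pool.Agent.K6.H49.UGX (Edge)
open Pool.Agent.K6.H49.UGQ
open Pool.Agent.K6.H49.LTR

section Fin

variable {n d q : ℕ} {σ : ℝ} {l : List Edge} {x y : ℕ → ℕ}

theorem cand_Sq (h : Xs n d q σ l) (hq : 0 < q) {K T cB e : ℕ} {c : List ℕ × List ℕ}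
    (hc : c ∈ listL K T cB e n q l) : Sq n q c.2 :=
  ⟨listL_len hc, fun v hv => ((listL_lt h.toXg hq hc).2 v hv).le⟩

/-- The labelings which are tried use the labels `0, …, q - 1`. -/
theorem listS_lt (h : Xs n d q σ l) (hq : 0 < q) {K T cB e : ℕ} {c : List ℕ × List ℕ}
    (hc : c ∈ listS K T cB e n q l) : (∀ u < n, toF c.1 u < q) ∧ ∀ u < n, toF c.2 u < q := by
  unfold listS at hc
  rw [List.mem_flatMap] at hc
  obtain ⟨c0, hc0, hc⟩ := hc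
  rw [List.mem_flatMap] at hc
  obtain ⟨v0, _, hc⟩ := hc
  rw [List.mem_map] at hc
  obtain ⟨a, ha, rfl⟩ := hc
  rw [List.mem_range] at ha
  refine ⟨fun u hu => (brLD h.toXg hq _ u hu).1, ?_⟩
  have h1 := (ph2_fix (l := l) (cand_Sq h hq hc0)).1
  have h2 := (ph3_fix (l := l) hq (ph2 n q l c0.2) h1).1
  have h3 : Sq n q (tab n (upd (toF (ph3 n q l (ph2 n q l c0.2) (ph2 n q l c0.2))) v0 a)) := by
    refine Sq_tab fun v hv => ?_
    unfold upd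
    split_ifs
    · exact ha.le
    · exact h2.2 v hv
  exact (ph4_fix (l := l) hq (ph3_fix (l := l) hq (ph2 n q l c0.2) h3).1).2

/-- **The algorithm on a satisfiable list of constraints.** -/
theorem algS_le (h : Xs n d q σ l) (hσ : 384000 * σ ≤ 1) (hx : ∀ u < n, x u < q)
    (hy : ∀ v < n, y v < q) (hsat : ∀ e ∈ l, tb e (x e.1) = y e.2.1) {Q K C T : ℕ}
    (hQ : Q = 24000) (hK : 4 * 2 ^ 2 * (1 * q) * Q ^ 2 ≤ K)
    (hC : ∀ (N : ℕ) (β : ℕ → ℕ → ℝ), 0 < N →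
      ∃ j : ℕ → ℕ, (∀ i < K, j i < N) ∧ ∃ c : ℕ → ℕ → ℝ, (∀ r < N, ∀ i < K, |c r i| ≤ C) ∧
      ∀ r < N, ∀ t < K, β r t = ∑ i ∈ range K, c r i * β (j i) t)
    (hT : 2 * K * C * q * Q ≤ T) {cB e : ℕ}
    (hcB : cB = C * q * (2 * (K + 1) * Q) * 2 ^ (Q * 2) * (Q * 2) ^ T + 1)
    (he : e = Q * 2 + 2) :
    (∀ u < n, toF (algS K T cB e n q l).1 u < q) ∧
    (∀ u < n, toF (algS K T cB e n q l).2 u < q) ∧
    V l (toF (algS K T cB e n q l).1) (toF (algS K T cB e n q l).2) ≤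
      1700 * σ ^ 4 * (d * n) := by
  have hn : (0 : ℝ) < n := by exact_mod_cast h.npos
  have hσ0 := h.nonneg
  have hq : 0 < q := by
    have := hy 0 h.npos
    omega
  have hQR : (Q : ℝ) = 24000 := by
    rw [hQ]
    norm_num
  obtain ⟨c, hc, hlt, hnd⟩ := exists_start h.toXg hσ0 (lr_one h) hq (Q := Q) (by omega)
    (by rw [hQR]; linarith) hK hC hT hx hy hsat
  rw [← hcB, ← he] at hc
  rw [← nd_nm] at hnd
  obtain ⟨p1, p2, p3⟩ := phase2 h (by linarith) hx hy hsat (listL_len hc) hlt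
    (hnd.trans (le_of_eq (by rw [hQR]; ring)))
  obtain ⟨v0, hv0, r1, r2⟩ := phase3 h (by linarith) hx hy hsat p1 p2 p3
  have h2 := (ph3_fix (l := l) hq (ph2 n q l c.2) p1).1
  have h3 : Sq n q (tab n (upd (toF (ph3 n q l (ph2 n q l c.2) (ph2 n q l c.2))) v0 (y v0))) := by
    refine Sq_tab fun v hv => ?_
    unfold upd
    split_ifs
    · exact (hy v0 hv0).le
    · exact h2.2 v hv
  have h4 := (ph3_fix (l := l) hq (ph2 n q l c.2) h3).1
  obtain ⟨s1, x', hx', s2⟩ := phase4 h (by linarith) hx hy hsat h4 r1 r2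
  have hmem : (brL n q l (fin n q l c.2 v0 (y v0)), fin n q l c.2 v0 (y v0)) ∈
      listS K T cB e n q l := by
    unfold listS
    rw [List.mem_flatMap]
    refine ⟨c, hc, ?_⟩
    rw [List.mem_flatMap]
    refine ⟨v0, List.mem_range.2 hv0, ?_⟩
    rw [List.mem_map]
    exact ⟨y v0, List.mem_range.2 (hy v0 hv0), rfl⟩
  obtain ⟨b1, b2⟩ := best_le l hmem
  have b3 := listS_lt h hq b1
  have b4 := listS_lt h hq hmem
  refine ⟨b3.1, b3.2, ?_⟩
  unfold algS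
  rw [← nvLD h.toXg b3.1]
  have b5 := nvLD h.toXg b4.1
  have b6 := BestLD h.toXg (brLD h.toXg hq (fin n q l c.2 v0 (y v0))) hx'
  have b7 : (nvL l (best l (listS K T cB e n q l)) : ℝ) ≤
      nvL l (brL n q l (fin n q l c.2 v0 (y v0)), fin n q l c.2 v0 (y v0)) := by
    exact_mod_cast b2
  refine b7.trans ?_
  rw [b5]
  exact b6.trans s2

end Fin

/-- **Satisfiable 2-to-1 games on expanders.** -/
theorem threshold : ∃ C : ℝ, 0 < C ∧ ∀ (q : ℕ) [NeZero q],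
    ∃ A : List Bool → List Bool, PolyTime A ∧
    ∀ (G : TTO.Game) (d : ℕ) (σ : ℝ), TTO.IsTwoToOne q G → TTO.Regular G d → 0 ≤ σ →
      TTO.SecondLE G (σ * d) → TTO.ValOne q G → ∃ w w' : List ℕ, A (bits G) = bits (w, w') ∧
        (1 - C * σ ^ 4) * G.2.length ≤ (TTO.numSat G (labq q w) (labq q w') : ℝ) := by
  refine ⟨384000 ^ 4, by norm_num, fun q _ => ?_⟩
  have hq : 0 < q := Nat.pos_of_ne_zero (NeZero.ne q)
  obtain ⟨Q, hQ⟩ : ∃ Q : ℕ, Q = 24000 := ⟨_, rfl⟩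
  obtain ⟨Cp, hCp⟩ := pivot (4 * 2 ^ 2 * (1 * q) * Q ^ 2)
  obtain ⟨K, hK⟩ : ∃ K, K = 4 * 2 ^ 2 * (1 * q) * Q ^ 2 := ⟨_, rfl⟩
  rw [← hK] at hCp
  obtain ⟨T, hT⟩ : ∃ T, T = 2 * K * Cp * q * Q := ⟨_, rfl⟩
  obtain ⟨cB, hcB⟩ : ∃ cB, cB = Cp * q * (2 * (K + 1) * Q) * 2 ^ (Q * 2) * (Q * 2) ^ T + 1 :=
    ⟨_, rfl⟩
  obtain ⟨e, he⟩ : ∃ e, e = Q * 2 + 2 := ⟨_, rfl⟩
  obtain ⟨A, hA, hA2⟩ := exists_algS K T cB e q
  refine ⟨A, hA, fun G d σ hG hR hσ0 hS hV => ⟨(algS K T cB e (nn G) q G.2).1,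
    (algS K T cB e (nn G) q G.2).2, hA2 G, ?_⟩⟩
  have hlen0 : (0 : ℝ) ≤ G.2.length := by positivity
  rcases le_or_gt (384000 * σ) 1 with hσ | hσ
  swap
  · have h1 : 1 ≤ 384000 ^ 4 * σ ^ 4 := by
      rw [← mul_pow]
      exact one_le_pow₀ hσ.le
    have h2 : (1 - 384000 ^ 4 * σ ^ 4) * (G.2.length : ℝ) ≤ 0 :=
      mul_nonpos_of_nonpos_of_nonneg (by linarith) hlen0
    refine h2.trans ?_
    positivity
  have hX : Xg G.1 d q 2 G.2 := xg_game hG.1 (fun e he => by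
    obtain ⟨h1, h2, h3, h4⟩ := hG.2 e he
    exact ⟨h1, h2, h3, h4⟩) hR
  have h : Xs G.1 d q σ G.2 := ⟨hX, hσ0, fun f g hf hg => hS f g hf hg⟩
  obtain ⟨f, g, hfg⟩ := hV
  have hsat : ∀ e ∈ G.2, tb e (nf f e.1) = nf g e.2.1 := by
    intro e he
    have h1 := List.countP_eq_length.1 hfg e he
    rw [decide_eq_true_eq] at h1
    have h2 := tbD_get (hX.tab e he) (f e.1).isLt
    have h3 : some (tb e (f e.1 : ℕ)) = some (g e.2.1 : ℕ) := by
      rw [← h2]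
      exact h1
    exact Option.some.inj h3
  have hnn : nn G = G.1 := nn_eq hX
  obtain ⟨b1, b2, b3⟩ := algS_le h hσ (x := nf f) (y := nf g) (fun u _ => (f u).isLt)
    (fun u _ => (g u).isLt) hsat hQ hK.ge hCp hT.ge hcB he
  rw [hnn]
  generalize algS K T cB e G.1 q G.2 = out at b1 b2 b3
  have hlen : (G.2.length : ℝ) = d * G.1 := by
    rw [len_eq hX]
    push_cast
    rfl
  have s2 := numSat_V G (labq q out.1) (labq q out.2)
  rw [V_congrD hX (fun u hu => nf_labq (b1 u hu)) (fun u hu => nf_labq (b2 u hu))] at s2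
  have t2 : TTO.numSat G (labq q out.1) (labq q out.2) =
      UGX.numSat G (labq q out.1) (labq q out.2) := rfl
  rw [t2]
  have s2' : (UGX.numSat G (labq q out.1) (labq q out.2) : ℝ) +
      V G.2 (toF out.1) (toF out.2) = G.2.length := s2
  rw [← hlen] at b3
  have h4 : 0 ≤ σ ^ 4 * (G.2.length : ℝ) := by positivity
  have h5 : 1700 * σ ^ 4 * (G.2.length : ℝ) ≤ 384000 ^ 4 * σ ^ 4 * G.2.length := by
    have : (1700 : ℝ) ≤ 384000 ^ 4 := by norm_num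
    nlinarith
  linarith

end Pool.Agent.K6.H49.TTS
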