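import Pool.Agent.K6.H49.TTS.Defs

/-!
# Counting edges and vertices; expander mixing
-/

set_option autoImplicit false

open Finset

namespace Pool.Agent.K6.H49.TTS

open Pool.Agent.K6.H49.UGX (Edge Xp)
open Pool.Agent.K6.H49.UGQ
open Pool.Agent.K6.H49.LTR

open scoped Classical in
/-- The number of the constraints with a property. -/
noncomputable def Ce (l : List Edge) (p : Edge → Prop) : ℝ := S (fun e => if p e then 1 else 0) l

open scoped Classical in
/-- The number of the vertices with a property. -/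
noncomputable def nm (n : ℕ) (A : ℕ → Prop) : ℝ := ∑ u ∈ range n, if A u then 1 else 0

section Count

variable {l : List Edge} {n : ℕ}

theorem ct_eq (p : Edge → Bool) : (ct l p : ℝ) = Ce l fun e => p e = true := by
  classical
  unfold ct Ce
  rw [filter_len]
  exact S_congr fun e _ => by congr

theorem Ce_nonneg (p : Edge → Prop) : 0 ≤ Ce l p :=
  S_nonneg fun e _ => by split_ifs <;> norm_num

theorem Ce_mono {p p' : Edge → Prop} (h : ∀ e ∈ l, p e → p' e) : Ce l p ≤ Ce l p' := by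
  classical
  refine S_le fun e he => ?_
  by_cases h1 : p e
  · rw [if_pos h1, if_pos (h e he h1)]
  · rw [if_neg h1]
    split_ifs <;> norm_num

theorem Ce_congr {p p' : Edge → Prop} (h : ∀ e ∈ l, p e ↔ p' e) : Ce l p = Ce l p' :=
  le_antisymm (Ce_mono fun e he => (h e he).1) (Ce_mono fun e he => (h e he).2)

theorem Ce_or {p p1 p2 : Edge → Prop} (h : ∀ e ∈ l, p e → p1 e ∨ p2 e) :
    Ce l p ≤ Ce l p1 + Ce l p2 := by
  classical
  unfold Ce
  rw [← S_add]
  refine S_le fun e he => ?_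
  by_cases h1 : p e
  · rw [if_pos h1]
    rcases h e he h1 with h2 | h2
    · rw [if_pos h2]
      split_ifs <;> norm_num
    · rw [if_pos h2]
      split_ifs <;> norm_num
  · rw [if_neg h1]
    split_ifs <;> norm_num

theorem Ce_or3 {p p1 p2 p3 : Edge → Prop} (h : ∀ e ∈ l, p e → p1 e ∨ p2 e ∨ p3 e) :
    Ce l p ≤ Ce l p1 + Ce l p2 + Ce l p3 := by
  have h1 := Ce_or (l := l) (p := p) (p1 := p1) (p2 := fun e => p2 e ∨ p3 e) h
  have h2 := Ce_or (l := l) (p := fun e => p2 e ∨ p3 e) (p1 := p2) (p2 := p3) fun e _ h => h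
  linarith

theorem Ce_pos {p : Edge → Prop} (h : 0 < Ce l p) : ∃ e ∈ l, p e := by
  classical
  by_contra hcon
  push Not at hcon
  have : Ce l p = 0 := by
    unfold Ce
    have h1 : S (fun e => if p e then (1 : ℝ) else 0) l = S (fun e => 0 * (1 : ℝ)) l :=
      S_congr fun e he => by rw [if_neg (hcon e he), zero_mul]
    rw [h1, S_mul, zero_mul]
  linarith

theorem Ce_one_le {p : Edge → Prop} {e : Edge} (he : e ∈ l) (hp : p e) : 1 ≤ Ce l p := by
  classical
  unfold Ce S
  have h1 : (1 : ℝ) = if p e then 1 else 0 := by rw [if_pos hp]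
  have h2 : (if p e then (1 : ℝ) else 0) ∈ l.map fun e => if p e then (1 : ℝ) else 0 :=
    List.mem_map.2 ⟨e, he, rfl⟩
  rw [← h1] at h2
  refine List.single_le_sum (fun x hx => ?_) _ h2
  obtain ⟨e', _, rfl⟩ := List.mem_map.1 hx
  split_ifs <;> norm_num

theorem Ce_left (hl : ∀ e ∈ l, e.1 < n) (p : Edge → Prop) :
    Ce l p = ∑ u ∈ range n, Ce l fun e => e.1 = u ∧ p e := by
  classical
  unfold Ce
  rw [S_split (fun e : Edge => e.1) hl]
  refine sum_congr rfl fun u _ => S_congr fun e _ => ?_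
  by_cases h1 : e.1 = u
  · by_cases h2 : p e
    · rw [if_pos h1, if_pos h2, if_pos ⟨h1, h2⟩]
    · rw [if_pos h1, if_neg h2, if_neg fun h => h2 h.2]
  · rw [if_neg h1, if_neg fun h => h1 h.1]

theorem Ce_right (hl : ∀ e ∈ l, e.2.1 < n) (p : Edge → Prop) :
    Ce l p = ∑ u ∈ range n, Ce l fun e => e.2.1 = u ∧ p e := by
  classical
  unfold Ce
  rw [S_split (fun e : Edge => e.2.1) hl]
  refine sum_congr rfl fun u _ => S_congr fun e _ => ?_
  by_cases h1 : e.2.1 = u
  · by_cases h2 : p e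
    · rw [if_pos h1, if_pos h2, if_pos ⟨h1, h2⟩]
    · rw [if_pos h1, if_neg h2, if_neg fun h => h2 h.2]
  · rw [if_neg h1, if_neg fun h => h1 h.1]

theorem nm_nonneg (A : ℕ → Prop) : 0 ≤ nm n A :=
  sum_nonneg fun u _ => by split_ifs <;> norm_num

theorem nm_mono {A A' : ℕ → Prop} (h : ∀ u < n, A u → A' u) : nm n A ≤ nm n A' := by
  classical
  refine sum_le_sum fun u hu => ?_
  by_cases h1 : A u
  · rw [if_pos h1, if_pos (h u (mem_range.1 hu) h1)]
  · rw [if_neg h1]
    split_ifs <;> norm_num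

theorem nm_le (A : ℕ → Prop) : nm n A ≤ n := by
  classical
  refine (nm_mono (A' := fun _ => True) fun _ _ _ => trivial).trans (le_of_eq ?_)
  unfold nm
  simp

theorem nm_or {A A1 A2 : ℕ → Prop} (h : ∀ u < n, A u → A1 u ∨ A2 u) :
    nm n A ≤ nm n A1 + nm n A2 := by
  classical
  unfold nm
  rw [← sum_add_distrib]
  refine sum_le_sum fun u hu => ?_
  by_cases h1 : A u
  · rw [if_pos h1]
    rcases h u (mem_range.1 hu) h1 with h2 | h2
    · rw [if_pos h2]
      split_ifs <;> norm_num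
    · rw [if_pos h2]
      split_ifs <;> norm_num
  · rw [if_neg h1]
    split_ifs <;> norm_num

theorem nm_or3 {A A1 A2 A3 : ℕ → Prop} (h : ∀ u < n, A u → A1 u ∨ A2 u ∨ A3 u) :
    nm n A ≤ nm n A1 + nm n A2 + nm n A3 := by
  have h1 := nm_or (n := n) (A := A) (A1 := A1) (A2 := fun u => A2 u ∨ A3 u) h
  have h2 := nm_or (n := n) (A := fun u => A2 u ∨ A3 u) (A1 := A2) (A2 := A3) fun u _ h => h
  linarith

theorem nm_zero {A : ℕ → Prop} (h : nm n A < 1) : ∀ u < n, ¬ A u := by
  classical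
  intro u hu hA
  have h1 : (1 : ℝ) ≤ nm n A := by
    have h2 : (1 : ℝ) = if A u then 1 else 0 := by rw [if_pos hA]
    refine h2.le.trans ?_
    unfold nm
    exact single_le_sum (f := fun u => if A u then (1 : ℝ) else 0)
      (fun u _ => by beta_reduce; split_ifs <;> norm_num) (mem_range.2 hu)
  linarith

/-- Markov's inequality. -/
theorem nm_markov {A : ℕ → Prop} {f : ℕ → ℝ} (hf : ∀ u < n, 0 ≤ f u) {c : ℝ}
    (h : ∀ u < n, A u → c ≤ f u) : c * nm n A ≤ ∑ u ∈ range n, f u := by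
  classical
  unfold nm
  rw [mul_sum]
  refine sum_le_sum fun u hu => ?_
  by_cases h1 : A u
  · rw [if_pos h1, mul_one]
    exact h u (mem_range.1 hu) h1
  · rw [if_neg h1, mul_zero]
    exact hf u (mem_range.1 hu)

end Count

/-- A `d`-regular list of constraints on `n + n` vertices, given by tables of maps of `q` labels
with fibers of at most two elements, whose second singular value is at most `σ d`. -/
structure Xs (n d q : ℕ) (σ : ℝ) (l : List Edge) : Prop extends Xg n d q 2 l where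
  nonneg : 0 ≤ σ
  mix : ∀ f g : ℕ → ℝ, ∑ u ∈ range n, f u = 0 → ∑ v ∈ range n, g v = 0 →
    |S (fun e => f e.1 * g e.2.1) l| ≤
      σ * d * (√(∑ u ∈ range n, f u ^ 2) * √(∑ v ∈ range n, g v ^ 2))

section Mixing

variable {n d q : ℕ} {σ : ℝ} {l : List Edge}

theorem Xs.toXp (h : Xs n d q σ l) : Xp n d σ (l.map fgt) where
  npos := h.npos
  dpos := h.dpos
  lt := by
    intro e he
    obtain ⟨e', he', rfl⟩ := List.mem_map.1 he
    exact h.lt e' he'
  left := fun u hu => by rw [S_fgt]; exact h.left u hu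
  right := fun u hu => by rw [S_fgt]; exact h.right u hu
  nonneg := h.nonneg
  mix := fun f g hf hg => by rw [S_fgt]; exact h.mix f g hf hg

theorem Xs.ltL (h : Xs n d q σ l) : ∀ e ∈ l, e.1 < n := fun e he => (h.lt e he).1

theorem Xs.ltR (h : Xs n d q σ l) : ∀ e ∈ l, e.2.1 < n := fun e he => (h.lt e he).2

theorem Xs.Ce_dL (h : Xs n d q σ l) {u : ℕ} (hu : u < n) : Ce l (fun e => e.1 = u) = d := by
  classical
  rw [← h.left u hu]
  exact S_congr fun e _ => by split_ifs <;> rfl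

theorem Xs.Ce_dR (h : Xs n d q σ l) {u : ℕ} (hu : u < n) : Ce l (fun e => e.2.1 = u) = d := by
  classical
  rw [← h.right u hu]
  exact S_congr fun e _ => by split_ifs <;> rfl

theorem Xs.Ce_L (h : Xs n d q σ l) (A : ℕ → Prop) : Ce l (fun e => A e.1) = d * nm n A := by
  classical
  unfold nm Ce
  exact h.sum_left fun u => if A u then (1 : ℝ) else 0

theorem Xs.Ce_R (h : Xs n d q σ l) (A : ℕ → Prop) : Ce l (fun e => A e.2.1) = d * nm n A := by
  classical
  unfold nm Ce
  exact h.sum_right fun u => if A u then (1 : ℝ) else 0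

/-- **The expander mixing lemma.** -/
theorem Xs.emix (h : Xs n d q σ l) (A B : ℕ → Prop) :
    |Ce l (fun e => A e.1 ∧ B e.2.1) - d / n * (nm n A * nm n B)| ≤
      σ * d * √(nm n A * nm n B) := by
  classical
  have hn : (0 : ℝ) < n := by exact_mod_cast h.npos
  have h1 := h.toXp.bil_le (fun u => if A u then (1 : ℝ) else 0) fun u =>
    if B u then (1 : ℝ) else 0
  rw [S_fgt] at h1
  have e1 : S (fun e : Edge => (fun e : UGX.SE => (if A e.1 then (1 : ℝ) else 0) *
      (if B e.2.1 then (1 : ℝ) else 0)) (fgt e)) l = Ce l fun e => A e.1 ∧ B e.2.1 := by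
    refine S_congr fun e _ => ?_
    simp only [fgt]
    by_cases h2 : A e.1 <;> by_cases h3 : B e.2.1 <;> simp [h2, h3]
  rw [e1] at h1
  have sq1 : ∀ A : ℕ → Prop, ∑ u ∈ range n, (if A u then (1 : ℝ) else 0) ^ 2 = nm n A := by
    intro A
    unfold nm
    refine sum_congr rfl fun u _ => ?_
    split_ifs <;> norm_num
  have sq2 : ∀ A : ℕ → Prop, ∑ u ∈ range n, (if A u then (1 : ℝ) else 0) = nm n A :=
    fun A => rfl
  rw [sq1, sq1, sq2, sq2] at h1
  refine h1.trans ?_
  have hσ := h.nonneg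
  refine mul_le_mul_of_nonneg_left ?_ (by positivity)
  rw [Real.sqrt_mul (nm_nonneg A)]
  refine mul_le_mul (Real.sqrt_le_sqrt ?_) (Real.sqrt_le_sqrt ?_) (Real.sqrt_nonneg _)
    (Real.sqrt_nonneg _)
  · have : 0 ≤ nm n A ^ 2 / n := by positivity
    linarith
  · have : 0 ≤ nm n B ^ 2 / n := by positivity
    linarith

theorem many_aux {a b τ σ D N : ℝ} (ha : 0 ≤ a) (hb : 0 ≤ b) (hD : 0 < D) (hN : 0 < N)
    (hτ : 0 < τ) (hσ : 0 ≤ σ) (hbn : 2 * b ≤ τ * N)
    (h : τ * D * a ≤ D / N * (a * b) + σ * D * √(a * b)) : τ ^ 2 * a ≤ 4 * σ ^ 2 * b := by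
  have hab : 0 ≤ a * b := mul_nonneg ha hb
  have h1 : D / N * (a * b) ≤ D * (τ / 2 * a) := by
    have h2 : b / N ≤ τ / 2 := by
      rw [div_le_iff₀ hN]
      linarith
    have h3 : D / N * (a * b) = D * (b / N * a) := by ring
    rw [h3]
    exact mul_le_mul_of_nonneg_left (mul_le_mul_of_nonneg_right h2 ha) hD.le
  have h4 : D * (τ / 2 * a) ≤ D * (σ * √(a * b)) := by nlinarith
  have h5 : τ / 2 * a ≤ σ * √(a * b) := le_of_mul_le_mul_left h4 hD
  have h6 : (τ / 2 * a) ^ 2 ≤ (σ * √(a * b)) ^ 2 :=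
    pow_le_pow_left₀ (by positivity) h5 2
  rw [mul_pow σ, Real.sq_sqrt hab] at h6
  rcases ha.eq_or_lt with h0 | h0
  · rw [← h0, mul_zero]
    positivity
  · have h7 : a * (τ ^ 2 * a) ≤ a * (4 * σ ^ 2 * b) := by nlinarith
    exact le_of_mul_le_mul_left h7 h0

/-- Few left vertices have many edges to a small set. -/
theorem Xs.manyL (h : Xs n d q σ l) {A B : ℕ → Prop} {τ : ℝ} (hτ : 0 < τ)
    (hA : ∀ u < n, A u → τ * d ≤ Ce l fun e => e.1 = u ∧ B e.2.1)
    (hB : 2 * nm n B ≤ τ * n) : τ ^ 2 * nm n A ≤ 4 * σ ^ 2 * nm n B := by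
  classical
  have hn : (0 : ℝ) < n := by exact_mod_cast h.npos
  have hd : (0 : ℝ) < d := by exact_mod_cast h.dpos
  refine many_aux (nm_nonneg A) (nm_nonneg B) hd hn hτ h.nonneg hB ?_
  have h1 := (abs_le.1 (h.emix A B)).2
  have h2 : τ * d * nm n A ≤ Ce l fun e => A e.1 ∧ B e.2.1 := by
    rw [Ce_left h.ltL]
    refine nm_markov (fun u _ => Ce_nonneg _) fun u hu hAu => (hA u hu hAu).trans ?_
    refine Ce_mono fun e _ he => ⟨he.1, ?_, he.2⟩
    rw [he.1]
    exact hAu
  linarith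

/-- Few right vertices have many edges to a small set. -/
theorem Xs.manyR (h : Xs n d q σ l) {A B : ℕ → Prop} {τ : ℝ} (hτ : 0 < τ)
    (hB : ∀ v < n, B v → τ * d ≤ Ce l fun e => e.2.1 = v ∧ A e.1)
    (hA : 2 * nm n A ≤ τ * n) : τ ^ 2 * nm n B ≤ 4 * σ ^ 2 * nm n A := by
  classical
  have hn : (0 : ℝ) < n := by exact_mod_cast h.npos
  have hd : (0 : ℝ) < d := by exact_mod_cast h.dpos
  refine many_aux (nm_nonneg B) (nm_nonneg A) hd hn hτ h.nonneg hA ?_
  have h1 := (abs_le.1 (h.emix A B)).2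
  have h2 : τ * d * nm n B ≤ Ce l fun e => A e.1 ∧ B e.2.1 := by
    rw [Ce_right h.ltR]
    refine nm_markov (fun u _ => Ce_nonneg _) fun u hu hAu => (hB u hu hAu).trans ?_
    refine Ce_mono fun e _ he => ⟨he.1, he.2, ?_⟩
    rw [he.1]
    exact hAu
  rw [mul_comm (nm n A)] at h1
  linarith

/-! ### Three labels -/

/-- The number of the constraints at `u` where the labels `a` and `b` differ. -/
noncomputable def df (l : List Edge) (u a b : ℕ) : ℝ := Ce l fun e => e.1 = u ∧ tb e a ≠ tb e b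

theorem three (h : Xs n d q σ l) {u a b c : ℕ} (hu : u < n) (ha : a < q) (hb : b < q) (hc : c < q)
    (hab : a ≠ b) (hac : a ≠ c) (hbc : b ≠ c) : 2 * (d : ℝ) ≤ df l u a b + df l u a c + df l u b c := by
  classical
  rw [← h.Ce_dL hu]
  unfold df Ce
  rw [← S_mul, ← S_add, ← S_add]
  refine S_le fun e he => ?_
  by_cases h1 : e.1 = u
  swap
  · rw [if_neg h1, if_neg fun h' => h1 h'.1, if_neg fun h' => h1 h'.1, if_neg fun h' => h1 h'.1]
    norm_num
  rw [if_pos h1]
  have hfib := fib_le (h.tab e he) (tb e a)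
  have key : ¬ (tb e a = tb e b ∧ tb e a = tb e c) := by
    rintro ⟨h2, h3⟩
    have h4 : ({a, b, c} : Finset ℕ) ⊆ (range q).filter fun i => tb e i = tb e a := by
      intro i hi
      rw [mem_insert, mem_insert, mem_singleton] at hi
      rw [mem_filter, mem_range]
      rcases hi with rfl | rfl | rfl
      · exact ⟨ha, rfl⟩
      · exact ⟨hb, h2.symm⟩
      · exact ⟨hc, h3.symm⟩
    have h5 := card_le_card h4
    rw [card_insert_of_notMem (by simp [hab, hac]), card_insert_of_notMem (by simp [hbc]),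
      card_singleton] at h5
    omega
  by_cases h2 : tb e a = tb e b <;> by_cases h3 : tb e a = tb e c
  · exact absurd ⟨h2, h3⟩ key
  · have h4 : tb e b ≠ tb e c := fun h' => h3 (h2.trans h')
    rw [if_neg fun h' => h'.2 h2, if_pos ⟨h1, h3⟩, if_pos ⟨h1, h4⟩]
    norm_num
  · have h4 : tb e b ≠ tb e c := fun h' => h2 (h3.trans h'.symm)
    rw [if_pos ⟨h1, h2⟩, if_neg fun h' => h'.2 h3, if_pos ⟨h1, h4⟩]
    norm_num
  · rw [if_pos ⟨h1, h2⟩, if_pos ⟨h1, h3⟩]
    split_ifs <;> norm_num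

end Mixing

end Pool.Agent.K6.H49.TTS
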