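import Pool.Agent.K6.H49.TTS.Mx

/-!
# Properties of the operators
-/

set_option autoImplicit false

open Finset

namespace Pool.Agent.K6.H49.TTS

open Pool.Agent.K6.H49.UGX (Edge)
open Pool.Agent.K6.H49.UGQ
open Pool.Agent.K6.H49.LTR

section Ops

variable {n d q : ℕ} {σ : ℝ} {l : List Edge}

theorem unk_eq (F : ℕ → ℕ) (u : ℕ) :
    (unk q l F u : ℝ) = Ce l fun e => e.1 = u ∧ q ≤ F e.2.1 := by
  unfold unk
  rw [ct_eq]
  exact Ce_congr fun e _ => by simp

theorem err_eq (F : ℕ → ℕ) (a u : ℕ) :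
    (err q l F a u : ℝ) = Ce l fun e => e.1 = u ∧ F e.2.1 < q ∧ tb e a ≠ F e.2.1 := by
  unfold err
  rw [ct_eq]
  exact Ce_congr fun e _ => by simp

theorem degL_eq (h : Xs n d q σ l) {u : ℕ} (hu : u < n) : (degL l u : ℝ) = d := by
  unfold degL
  rw [ct_eq, ← h.Ce_dL hu]
  exact Ce_congr fun e _ => by simp

theorem degR_eq (h : Xs n d q σ l) {u : ℕ} (hu : u < n) : (degR l u : ℝ) = d := by
  unfold degR
  rw [ct_eq, ← h.Ce_dR hu]
  exact Ce_congr fun e _ => by simp

theorem actv_iff (h : Xs n d q σ l) {u : ℕ} (hu : u < n) (F : ℕ → ℕ) :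
    actv q l F u = true ↔ 5 * Ce l (fun e => e.1 = u ∧ q ≤ F e.2.1) ≤ d := by
  unfold actv
  rw [decide_eq_true_eq, ← degL_eq h hu, ← unk_eq]
  constructor
  · intro h1
    exact_mod_cast h1
  · intro h1
    exact_mod_cast h1

theorem inL_iff (h : Xs n d q σ l) {u : ℕ} (hu : u < n) (F : ℕ → ℕ) (a : ℕ) :
    inL q l F a u = true ↔
      100 * Ce l (fun e => e.1 = u ∧ F e.2.1 < q ∧ tb e a ≠ F e.2.1) ≤ d := by
  unfold inL
  rw [decide_eq_true_eq, ← degL_eq h hu, ← err_eq]
  constructor
  · intro h1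
    exact_mod_cast h1
  · intro h1
    exact_mod_cast h1

theorem inact_eq (F : ℕ → ℕ) (v : ℕ) :
    (inact q l F v : ℝ) = Ce l fun e => e.2.1 = v ∧ ¬ actv q l F e.1 = true := by
  unfold inact
  rw [ct_eq]
  exact Ce_congr fun e _ => by simp

theorem vot_eq (F : ℕ → ℕ) (c v : ℕ) : (vot q l F c v : ℝ) = Ce l fun e => e.2.1 = v ∧
    actv q l F e.1 = true ∧ ∃ a < q, inL q l F a e.1 = true ∧ tb e a = c := by
  unfold vot
  rw [ct_eq]
  refine Ce_congr fun e _ => ?_
  simp only [Bool.and_eq_true, decide_eq_true_eq, List.any_eq_true, List.mem_range]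

theorem bad2_iff (h : Xs n d q σ l) {v : ℕ} (hv : v < n) (F : ℕ → ℕ) :
    bad2 q l F v = true ↔ (d : ℝ) < 200 * Ce l (fun e => e.2.1 = v ∧ ¬ actv q l F e.1 = true) ∨
      ∃ c < q, c ≠ F v ∧ 99 * (d : ℝ) ≤ 100 * Ce l (fun e => e.2.1 = v ∧
        actv q l F e.1 = true ∧ ∃ a < q, inL q l F a e.1 = true ∧ tb e a = c) := by
  unfold bad2
  rw [Bool.or_eq_true, decide_eq_true_eq, List.any_eq_true, ← degR_eq h hv, ← inact_eq]
  refine or_congr ?_ ?_
  · constructor
    · intro h1
      exact_mod_cast h1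
    · intro h1
      exact_mod_cast h1
  · refine exists_congr fun c => ?_
    rw [List.mem_range, Bool.and_eq_true, decide_eq_true_eq, ← vot_eq]
    refine and_congr Iff.rfl (and_congr ?_ ?_)
    · simp
    · constructor
      · intro h1
        exact_mod_cast h1
      · intro h1
        exact_mod_cast h1

theorem dom_iff (F : ℕ → ℕ) (a u : ℕ) :
    dom q l F a u = true ↔ ∀ e ∈ l, e.1 = u → F e.2.1 < q → tb e a = F e.2.1 := by
  unfold dom err ct
  rw [decide_eq_true_eq, List.length_eq_zero_iff, List.filter_eq_nil_iff]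
  refine forall_congr' fun e => forall_congr' fun _ => ?_
  simp only [Bool.and_eq_true, decide_eq_true_eq, Bool.not_eq_true', decide_eq_false_iff_not]
  tauto

theorem mem_pos (A : ℕ → Bool) (F : ℕ → ℕ) (v c : ℕ) :
    c ∈ pos q l A F v ↔ c < q ∧ ∀ e ∈ l, e.2.1 = v → A e.1 = true →
      ∃ a < q, dom q l F a e.1 = true ∧ tb e a = c := by
  unfold pos
  rw [List.mem_filter, List.mem_range, List.all_eq_true]
  refine and_congr Iff.rfl (forall_congr' fun e => forall_congr' fun _ => ?_)
  simp only [Bool.or_eq_true, Bool.not_eq_true', decide_eq_false_iff_not, List.any_eq_true,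
    List.mem_range, Bool.and_eq_true, decide_eq_true_eq]
  constructor
  · intro h1 h2 h3
    rcases h1 with h1 | h1 | h1
    · exact absurd h2 h1
    · rw [h3] at h1
      exact absurd h1 (by simp)
    · exact h1
  · intro h1
    by_cases h2 : e.2.1 = v
    · by_cases h3 : A e.1 = true
      · exact Or.inr (Or.inr (h1 h2 h3))
      · exact Or.inr (Or.inl (by simpa using h3))
    · exact Or.inl h2

theorem pos_nodup (A : ℕ → Bool) (F : ℕ → ℕ) (v : ℕ) : (pos q l A F v).Nodup :=
  List.Nodup.filter _ List.nodup_range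

theorem headD_lt (hq : 0 < q) (A : ℕ → Bool) (F : ℕ → ℕ) (v : ℕ) :
    (pos q l A F v).headD 0 < q := by
  cases hL : pos q l A F v with
  | nil => exact hq
  | cons c L =>
    have : c ∈ pos q l A F v := by rw [hL]; exact List.mem_cons_self
    exact ((mem_pos A F v c).1 this).1

/-- Two labels differ in the unknown vertices and in the violated constraints. -/
theorem df_le (F : ℕ → ℕ) (u a b : ℕ) : df l u a b ≤
    Ce l (fun e => e.1 = u ∧ q ≤ F e.2.1) +
    Ce l (fun e => e.1 = u ∧ F e.2.1 < q ∧ tb e a ≠ F e.2.1) +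
    Ce l (fun e => e.1 = u ∧ F e.2.1 < q ∧ tb e b ≠ F e.2.1) := by
  refine Ce_or3 fun e _ he => ?_
  rcases lt_or_ge (F e.2.1) q with h1 | h1
  · by_cases h2 : tb e a = F e.2.1
    · refine Or.inr (Or.inr ⟨he.1, h1, fun h3 => he.2 ?_⟩)
      rw [h2, h3]
    · exact Or.inr (Or.inl ⟨he.1, h1, h2⟩)
  · exact Or.inl ⟨he.1, h1⟩

/-- An active vertex has at most two good labels. -/
theorem two_good (h : Xs n d q σ l) {u a b c : ℕ} (hu : u < n) {F : ℕ → ℕ}
    (hA : actv q l F u = true) (ha : a < q) (hb : b < q) (hc : c < q)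
    (ha' : inL q l F a u = true) (hb' : inL q l F b u = true) (hc' : inL q l F c u = true)
    (hab : a ≠ b) (hac : a ≠ c) : b = c := by
  by_contra hbc
  have hd : (0 : ℝ) < d := by exact_mod_cast h.dpos
  have h1 := three h hu ha hb hc hab hac hbc
  rw [actv_iff h hu] at hA
  rw [inL_iff h hu] at ha' hb' hc'
  have h2 := df_le (q := q) (l := l) F u a b
  have h3 := df_le (q := q) (l := l) F u a c
  have h4 := df_le (q := q) (l := l) F u b c
  linarith

theorem dom_err {F : ℕ → ℕ} {a u : ℕ} (h : dom q l F a u = true) :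
    Ce l (fun e => e.1 = u ∧ F e.2.1 < q ∧ tb e a ≠ F e.2.1) = 0 := by
  rw [← err_eq]
  unfold dom at h
  rw [decide_eq_true_eq] at h
  exact_mod_cast h

/-- An active vertex has at most two possible labels (the activity is that of `B`, and `F` knows
more). -/
theorem two_dom (h : Xs n d q σ l) {u a b c : ℕ} (hu : u < n) {B F : ℕ → ℕ}
    (hBF : ∀ v < n, B v < q → F v < q)
    (hA : actv q l B u = true) (ha : a < q) (hb : b < q) (hc : c < q)
    (ha' : dom q l F a u = true) (hb' : dom q l F b u = true) (hc' : dom q l F c u = true)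
    (hab : a ≠ b) (hac : a ≠ c) : b = c := by
  by_contra hbc
  have hd : (0 : ℝ) < d := by exact_mod_cast h.dpos
  have h1 := three h hu ha hb hc hab hac hbc
  rw [actv_iff h hu] at hA
  have h2 := df_le (q := q) (l := l) F u a b
  have h3 := df_le (q := q) (l := l) F u a c
  have h4 := df_le (q := q) (l := l) F u b c
  rw [dom_err ha'] at h2 h3
  rw [dom_err hb'] at h2 h4
  rw [dom_err hc'] at h3 h4
  have h5 : Ce l (fun e => e.1 = u ∧ q ≤ F e.2.1) ≤ Ce l (fun e => e.1 = u ∧ q ≤ B e.2.1) := by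
    refine Ce_mono fun e he h6 => ⟨h6.1, ?_⟩
    by_contra h7
    push Not at h7
    have := hBF _ (h.lt e he).2 h7
    omega
  linarith

/-! ### Lists -/

theorem toF_tab (F : ℕ → ℕ) {v : ℕ} (hv : v < n) : toF (tab n F) v = F v := by
  unfold toF tab
  rw [getD_range_map, if_pos hv]

/-- Lists of `n` numbers at most `q`. -/
def Sq (n q : ℕ) (L : List ℕ) : Prop := L.length = n ∧ ∀ v < n, toF L v ≤ q

theorem tab_len (F : ℕ → ℕ) : (tab n F).length = n := by simp [tab]

theorem Sq_tab {F : ℕ → ℕ} (h : ∀ v < n, F v ≤ q) : Sq n q (tab n F) :=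
  ⟨tab_len F, fun v hv => by rw [toF_tab F hv]; exact h v hv⟩

theorem tab_eq {F : ℕ → ℕ} {L : List ℕ} (hL : L.length = n) (h : ∀ v < n, F v = toF L v) :
    tab n F = L := by
  refine List.ext_getElem (by rw [tab_len, hL]) fun i h1 h2 => ?_
  have h3 : i < n := by rwa [tab_len] at h1
  have h4 := h i h3
  unfold toF at h4
  rw [List.getD_eq_getElem _ _ h2] at h4
  rw [← h4]
  simp [tab]

/-- A monotone operator reaches a fixed point. -/
theorem fix_of {g : List ℕ → List ℕ} {m : List ℕ → ℕ} {P : List ℕ → Prop}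
    (hP : ∀ L, P L → P (g L)) (hm : ∀ L, P L → m L ≤ n)
    (hstep : ∀ L, P L → m L < m (g L) ∨ g L = L) {L : List ℕ} (hL : P L) :
    P (g^[n] L) ∧ g (g^[n] L) = g^[n] L := by
  have hPk : ∀ k, P (g^[k] L) := by
    intro k
    induction k with
    | zero => exact hL
    | succ k ih =>
      rw [Function.iterate_succ_apply']
      exact hP _ ih
  refine ⟨hPk n, ?_⟩
  by_contra hcon
  have h1 : ∀ k ≤ n, g (g^[k] L) ≠ g^[k] L := by
    intro k hk hfix
    have h2 : ∀ j, g^[k + j] L = g^[k] L := by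
      intro j
      induction j with
      | zero => rfl
      | succ j ih => rw [← add_assoc, Function.iterate_succ_apply', ih, hfix]
    have h3 := h2 (n - k)
    rw [Nat.add_sub_cancel' hk] at h3
    exact hcon (by rw [h3, hfix])
  have h2 : ∀ k ≤ n + 1, k ≤ m (g^[k] L) := by
    intro k
    induction k with
    | zero => intro _; exact Nat.zero_le _
    | succ k ih =>
      intro hk
      have h3 := ih (by omega)
      rcases hstep _ (hPk k) with h4 | h4
      · rw [Function.iterate_succ_apply']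
        omega
      · exact absurd h4 (h1 k (by omega))
  have h3 := h2 (n + 1) le_rfl
  have h4 := hm _ (hPk (n + 1))
  omega

/-- The number of the known vertices. -/
def kn (n q : ℕ) (L : List ℕ) : ℕ := ((range n).filter fun v => toF L v < q).card

/-- The number of the unknown vertices. -/
def un (n q : ℕ) (L : List ℕ) : ℕ := ((range n).filter fun v => q ≤ toF L v).card

theorem kn_le (L : List ℕ) : kn n q L ≤ n := by
  refine (card_filter_le _ _).trans ?_
  rw [card_range]

theorem un_le (L : List ℕ) : un n q L ≤ n := by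
  refine (card_filter_le _ _).trans ?_
  rw [card_range]

/-- The alternative for the first operator. -/
theorem st2_step {L : List ℕ} (hL : Sq n q L) :
    un n q L < un n q (st2L n q l L) ∨ st2L n q l L = L := by
  have hv2 : ∀ v < n, toF (st2L n q l L) v = st2 q l (toF L) v := fun v hv => toF_tab _ hv
  have hsub : ((range n).filter fun v => q ≤ toF L v) ⊆
      (range n).filter fun v => q ≤ toF (st2L n q l L) v := by
    intro v hv
    rw [mem_filter, mem_range] at hv ⊢
    refine ⟨hv.1, ?_⟩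
    rw [hv2 v hv.1]
    unfold st2
    rw [if_neg (by omega)]
  by_cases h : un n q L < un n q (st2L n q l L)
  · exact Or.inl h
  · right
    unfold un at h
    have h1 := eq_of_subset_of_card_le hsub (by omega)
    refine tab_eq hL.1 fun v hv => ?_
    rcases lt_or_ge (toF L v) q with h2 | h2
    · have h3 : v ∉ (range n).filter fun v => q ≤ toF (st2L n q l L) v := by
        rw [← h1, mem_filter]
        omega
      rw [mem_filter, mem_range] at h3
      have h4 : ¬ q ≤ toF (st2L n q l L) v := fun h' => h3 ⟨hv, h'⟩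
      rw [hv2 v hv] at h4
      unfold st2 at h4 ⊢
      rw [if_pos h2] at h4 ⊢
      split_ifs at h4 ⊢ with h5
      · omega
      · rfl
    · unfold st2
      rw [if_neg (by omega)]
      have := hL.2 v hv
      omega

theorem st2_le (F : ℕ → ℕ) (v : ℕ) : st2 q l F v ≤ q := by
  unfold st2
  split_ifs <;> omega

theorem ph2_fix {L : List ℕ} (hL : Sq n q L) : Sq n q (ph2 n q l L) ∧
    ∀ v < n, st2 q l (toF (ph2 n q l L)) v = toF (ph2 n q l L) v := by
  obtain ⟨h1, h2⟩ := fix_of (g := st2L n q l) (m := un n q) (P := Sq n q)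
    (fun L _ => Sq_tab fun v _ => st2_le _ v) (fun L _ => un_le L) (fun L hL => st2_step hL) hL
  refine ⟨h1, fun v hv => ?_⟩
  have h3 : toF (st2L n q l (ph2 n q l L)) v = toF (ph2 n q l L) v := by
    unfold ph2
    rw [h2]
  rw [← h3]
  exact (toF_tab _ hv).symm

theorem cl_le (hq : 0 < q) (A : ℕ → Bool) (F : ℕ → ℕ) (v : ℕ) : cl q l A F v ≤ q := by
  unfold cl
  have := headD_lt (l := l) hq A F v
  split_ifs <;> omega

/-- The alternative for the second operator. -/
theorem cl_step (hq : 0 < q) (B : List ℕ) {L : List ℕ} (hL : Sq n q L) :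
    kn n q L < kn n q (clL n q l B L) ∨ clL n q l B L = L := by
  have hv2 : ∀ v < n, toF (clL n q l B L) v = cl q l (actv q l (toF B)) (toF L) v :=
    fun v hv => toF_tab _ hv
  have hsub : ((range n).filter fun v => toF L v < q) ⊆
      (range n).filter fun v => toF (clL n q l B L) v < q := by
    intro v hv
    rw [mem_filter, mem_range] at hv ⊢
    refine ⟨hv.1, ?_⟩
    rw [hv2 v hv.1]
    unfold cl
    rw [if_pos hv.2]
    exact hv.2
  by_cases h : kn n q L < kn n q (clL n q l B L)
  · exact Or.inl h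
  · right
    unfold kn at h
    have h1 := eq_of_subset_of_card_le hsub (by omega)
    refine tab_eq hL.1 fun v hv => ?_
    rcases lt_or_ge (toF L v) q with h2 | h2
    · unfold cl
      rw [if_pos h2]
    · have h3 : v ∉ (range n).filter fun v => toF (clL n q l B L) v < q := by
        rw [← h1, mem_filter]
        omega
      rw [mem_filter, mem_range] at h3
      have h4 : ¬ toF (clL n q l B L) v < q := fun h' => h3 ⟨hv, h'⟩
      rw [hv2 v hv] at h4
      have h5 := cl_le (l := l) hq (actv q l (toF B)) (toF L) v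
      have h6 := hL.2 v hv
      omega

theorem ph3_fix (hq : 0 < q) (B : List ℕ) {L : List ℕ} (hL : Sq n q L) :
    Sq n q (ph3 n q l B L) ∧ ∀ v < n, cl q l (actv q l (toF B)) (toF (ph3 n q l B L)) v =
      toF (ph3 n q l B L) v := by
  obtain ⟨h1, h2⟩ := fix_of (g := clL n q l B) (m := kn n q) (P := Sq n q)
    (fun L _ => Sq_tab fun v _ => cl_le hq _ _ v) (fun L _ => kn_le L)
    (fun L hL => cl_step hq B hL) hL
  refine ⟨h1, fun v hv => ?_⟩
  have h3 : toF (clL n q l B (ph3 n q l B L)) v = toF (ph3 n q l B L) v := by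
    unfold ph3
    rw [h2]
  rw [← h3]
  exact (toF_tab _ hv).symm

theorem fx_le (hq : 0 < q) (A : ℕ → Bool) (F : ℕ → ℕ) (v : ℕ) : fx n q l A F v ≤ q := by
  unfold fx
  have := headD_lt (l := l) hq A F v
  split_ifs <;> omega

/-- The first unknown vertex. -/
theorem first_unk {F : ℕ → ℕ} (h : ∃ v < n, q ≤ F v) :
    ∃ v < n, q ≤ F v ∧ ∀ w < v, F w < q := by
  classical
  have h1 : ∃ v, v < n ∧ q ≤ F v := h
  refine ⟨Nat.find h1, (Nat.find_spec h1).1, (Nat.find_spec h1).2, fun w hw => ?_⟩
  have h2 := Nat.find_min h1 hw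
  by_contra h3
  exact h2 ⟨hw.trans (Nat.find_spec h1).1, not_lt.1 h3⟩

theorem fx_at {F : ℕ → ℕ} (A : ℕ → Bool) {v : ℕ} (hv : q ≤ F v) (hmin : ∀ w < v, F w < q) :
    fx n q l A F v = (pos q l A F v).headD 0 := by
  unfold fx
  rw [if_neg (by omega), if_pos]
  rw [List.all_eq_true]
  intro w _
  rw [Bool.or_eq_true, decide_eq_true_eq, decide_eq_true_eq]
  rcases lt_or_ge w v with h1 | h1
  · exact Or.inr (hmin w h1)
  · exact Or.inl h1

theorem fx_other {F : ℕ → ℕ} (A : ℕ → Bool) {v v1 : ℕ} (hv1 : v1 < n) (hF : q ≤ F v1)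
    (hv : q ≤ F v) (h : v1 < v) : fx n q l A F v = q := by
  unfold fx
  rw [if_neg (by omega), if_neg]
  rw [List.all_eq_true]
  intro h1
  have h2 := h1 v1 (List.mem_range.2 hv1)
  rw [Bool.or_eq_true, decide_eq_true_eq, decide_eq_true_eq] at h2
  omega

/-- The alternative for the third operator. -/
theorem gr_step (hq : 0 < q) (B : List ℕ) {L : List ℕ} (hL : Sq n q L) :
    kn n q L < kn n q (grL n q l B L) ∨ grL n q l B L = L := by
  unfold grL
  split_ifs with h
  · by_cases hex : ∃ v < n, q ≤ toF L v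
    · left
      obtain ⟨v1, h1, h2, h3⟩ := first_unk hex
      unfold kn
      refine card_lt_card ?_
      rw [ssubset_iff_of_subset]
      · refine ⟨v1, ?_, ?_⟩
        · rw [mem_filter, mem_range]
          refine ⟨h1, ?_⟩
          unfold fxL
          rw [toF_tab _ h1, fx_at _ h2 h3]
          exact headD_lt hq _ _ _
        · rw [mem_filter]
          omega
      · intro v hv
        rw [mem_filter, mem_range] at hv ⊢
        refine ⟨hv.1, ?_⟩
        unfold fxL
        rw [toF_tab _ hv.1]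
        unfold fx
        rw [if_pos hv.2]
        exact hv.2
    · right
      push Not at hex
      refine tab_eq hL.1 fun v hv => ?_
      unfold fx
      rw [if_pos (hex v hv)]
  · rcases cl_step (l := l) hq B hL with h1 | h1
    · exact Or.inl h1
    · exact absurd h1 h

theorem ph4_fix (hq : 0 < q) {L : List ℕ} (hL : Sq n q L) :
    Sq n q (ph4 n q l L) ∧ ∀ v < n, toF (ph4 n q l L) v < q := by
  obtain ⟨h1, h2⟩ := fix_of (g := grL n q l L) (m := kn n q) (P := Sq n q)
    (fun L' _ => by
      unfold grL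
      split_ifs
      · exact Sq_tab fun v _ => fx_le hq _ _ v
      · exact Sq_tab fun v _ => cl_le hq _ _ v) (fun L _ => kn_le L)
    (fun L' hL' => gr_step hq L hL') hL
  refine ⟨h1, ?_⟩
  by_contra hcon
  push Not at hcon
  have h3 : grL n q l L (ph4 n q l L) = ph4 n q l L := h2
  unfold grL at h3
  split_ifs at h3 with h4
  · obtain ⟨v1, h5, h6, h7⟩ := first_unk hcon
    have h8 : toF (fxL n q l L (ph4 n q l L)) v1 = toF (ph4 n q l L) v1 := by rw [h3]
    unfold fxL at h8
    rw [toF_tab _ h5, fx_at _ h6 h7] at h8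
    have h9 := headD_lt (l := l) hq (actv q l (toF L)) (toF (ph4 n q l L)) v1
    omega
  · exact absurd h3 h4

end Ops

end Pool.Agent.K6.H49.TTS
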