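import Pool.Agent.K6.H49.TTS.Op

/-!
# The propagation of exact labels
-/

set_option autoImplicit false

open Finset

namespace Pool.Agent.K6.H49.TTS

open Pool.Agent.K6.H49.UGX (Edge)
open Pool.Agent.K6.H49.UGQ
open Pool.Agent.K6.H49.LTR

/-- The known labels of `F` are those of `y`. -/
def Ex (n q : ℕ) (F y : ℕ → ℕ) : Prop := ∀ v < n, F v < q → F v = y v

/-- The labels `x`, `y` satisfy all constraints at the vertices of `A`. -/
def SolA (l : List Edge) (A : ℕ → Bool) (x y : ℕ → ℕ) : Prop :=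
  ∀ e ∈ l, A e.1 = true → tb e (x e.1) = y e.2.1

section Ph3

variable {n d q : ℕ} {σ : ℝ} {l : List Edge} {x y : ℕ → ℕ} {A : ℕ → Bool} {F : ℕ → ℕ}

theorem x_dom (h : Xs n d q σ l) (hS : SolA l A x y) (hF : Ex n q F y) {u : ℕ}
    (hA : A u = true) : dom q l F (x u) u = true := by
  rw [dom_iff]
  intro e he h1 h2
  rw [hF _ (h.lt e he).2 h2, ← hS e he (by rw [h1]; exact hA), h1]

theorem y_mem_pos (h : Xs n d q σ l) (hx : ∀ u < n, x u < q) (hy : ∀ v < n, y v < q)
    (hS : SolA l A x y) (hF : Ex n q F y) {v : ℕ} (hv : v < n) : y v ∈ pos q l A F v := by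
  rw [mem_pos]
  refine ⟨hy v hv, fun e he h1 h2 => ⟨x e.1, hx _ (h.lt e he).1, x_dom h hS hF h2, ?_⟩⟩
  rw [hS e he h2, h1]

theorem cl_Ex (h : Xs n d q σ l) (hx : ∀ u < n, x u < q) (hy : ∀ v < n, y v < q)
    (hS : SolA l A x y) (hF : Ex n q F y) : Ex n q (cl q l A F) y := by
  intro v hv h1
  unfold cl at h1 ⊢
  split_ifs at h1 ⊢ with h2 h3
  · exact hF v hv h2
  · have h4 := y_mem_pos h hx hy hS hF hv
    obtain ⟨c, hc⟩ := List.length_eq_one_iff.1 h3
    rw [hc] at h4 ⊢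
    simp only [List.headD_cons]
    exact (List.mem_singleton.1 h4).symm
  · exact absurd h1 (lt_irrefl _)

theorem clL_Ex (h : Xs n d q σ l) (hx : ∀ u < n, x u < q) (hy : ∀ v < n, y v < q) {B L : List ℕ}
    (hS : SolA l (actv q l (toF B)) x y) (hF : Ex n q (toF L) y) :
    Ex n q (toF (clL n q l B L)) y := by
  intro v hv h1
  unfold clL at h1 ⊢
  rw [toF_tab _ hv] at h1 ⊢
  exact cl_Ex h hx hy hS hF v hv h1

theorem clL_mono (B L : List ℕ) {v : ℕ} (hv : v < n) (h1 : toF L v < q) :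
    toF (clL n q l B L) v < q := by
  unfold clL
  rw [toF_tab _ hv]
  unfold cl
  rw [if_pos h1]
  exact h1

theorem ph3_Ex (h : Xs n d q σ l) (hx : ∀ u < n, x u < q) (hy : ∀ v < n, y v < q) {B L : List ℕ}
    (hS : SolA l (actv q l (toF B)) x y) (hF : Ex n q (toF L) y) :
    Ex n q (toF (ph3 n q l B L)) y ∧ ∀ v < n, toF L v < q → toF (ph3 n q l B L) v < q := by
  unfold ph3
  have key : ∀ k, Ex n q (toF ((clL n q l B)^[k] L)) y ∧
      ∀ v < n, toF L v < q → toF ((clL n q l B)^[k] L) v < q := by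
    intro k
    induction k with
    | zero => exact ⟨hF, fun v _ h1 => h1⟩
    | succ k ih =>
      rw [Function.iterate_succ_apply']
      exact ⟨clL_Ex h hx hy hS ih.1, fun v hv h1 => clL_mono B _ hv (ih.2 v hv h1)⟩
  exact key n

/-- At a fixed point an unknown vertex has another possible label. -/
theorem fix_two (h : Xs n d q σ l) (hx : ∀ u < n, x u < q) (hy : ∀ v < n, y v < q)
    (hS : SolA l A x y) (hF : Ex n q F y) (hfix : ∀ v < n, cl q l A F v = F v) {v : ℕ}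
    (hv : v < n) (hun : q ≤ F v) : ∃ c ∈ pos q l A F v, c ≠ y v := by
  by_contra hcon
  push Not at hcon
  have h1 := y_mem_pos h hx hy hS hF hv
  have h2 : (pos q l A F v).length = 1 := by
    have h3 := pos_nodup (q := q) (l := l) A F v
    generalize pos q l A F v = L at h1 h3 hcon
    cases L with
    | nil => exact absurd h1 List.not_mem_nil
    | cons a L =>
      cases L with
      | nil => rfl
      | cons b L =>
        have h4 := hcon a (by simp)
        have h5 := hcon b (by simp)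
        rw [List.nodup_cons] at h3
        exact absurd (by rw [h4, h5]; exact List.mem_cons_self) h3.1
  have h3 := hfix v hv
  unfold cl at h3
  rw [if_neg (by omega), if_pos h2] at h3
  have h4 := headD_lt (l := l) (by have := hy v hv; omega : 0 < q) A F v
  omega

theorem dom_mono (h : Xs n d q σ l) {F' : ℕ → ℕ} (hF : Ex n q F y) (hF' : Ex n q F' y)
    (hm : ∀ v < n, F v < q → F' v < q) {a u : ℕ} (hd : dom q l F' a u = true) :
    dom q l F a u = true := by
  rw [dom_iff] at hd ⊢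
  intro e he h1 h2
  have hv := (h.lt e he).2
  rw [hF _ hv h2, ← hF' _ hv (hm _ hv h2)]
  exact hd e he h1 (hm _ hv h2)

/-- The known part is closed. -/
theorem closed_kn (h : Xs n d q σ l) (hx : ∀ u < n, x u < q) (hy : ∀ v < n, y v < q)
    {B : ℕ → ℕ} (hS : SolA l (actv q l B) x y) {F' : ℕ → ℕ}
    (hF : Ex n q F y) (hF' : Ex n q F' y) (hBF : ∀ v < n, B v < q → F v < q)
    (hm : ∀ v < n, F v < q → F' v < q)
    (hfix : ∀ v < n, cl q l (actv q l B) F v = F v)
    (hfix' : ∀ v < n, cl q l (actv q l B) F' v = F' v) {e1 e2 : Edge} (he1 : e1 ∈ l)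
    (he2 : e2 ∈ l) (heq : e1.1 = e2.1) (hA : actv q l B e1.1 = true) (h1 : q ≤ F e1.2.1)
    (h3 : F' e1.2.1 < q) : F' e2.2.1 < q := by
  by_contra hcon
  push Not at hcon
  have l1 := h.lt e1 he1
  have l2 := h.lt e2 he2
  obtain ⟨c2, hc2, hne2⟩ := fix_two h hx hy hS hF' hfix' l2.2 hcon
  obtain ⟨c1, hc1, hne1⟩ := fix_two h hx hy hS hF hfix l1.2 h1
  obtain ⟨a1, ha1, hd1, ht1⟩ := ((mem_pos _ _ _ _).1 hc1).2 e1 he1 rfl hA
  obtain ⟨a2, ha2, hd2, ht2⟩ := ((mem_pos _ _ _ _).1 hc2).2 e2 he2 rfl (by rw [← heq]; exact hA)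
  rw [← heq] at hd2
  have hd2' := dom_mono h hF hF' hm hd2
  have hxd := x_dom h hS hF hA
  have n1 : x e1.1 ≠ a1 := by
    intro h4
    rw [← h4, hS e1 he1 hA] at ht1
    exact hne1 ht1.symm
  have n2 : x e1.1 ≠ a2 := by
    intro h4
    rw [← h4, heq, hS e2 he2 (by rw [← heq]; exact hA)] at ht2
    exact hne2 ht2.symm
  have h5 : a1 = a2 := two_dom h l1.1 hBF hA (hx _ l1.1) ha1 ha2 hxd hd1 hd2' n1 n2
  have h6 := (dom_iff (q := q) (l := l) F' a2 e1.1).1 hd2 e1 he1 rfl h3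
  rw [← h5, ht1, hF' _ l1.2 h3] at h6
  exact hne1 h6

/-! ### Closed sets of unknown vertices -/

/-- The active neighbours of a set. -/
def NA (l : List Edge) (A : ℕ → Bool) (T : ℕ → Prop) (u : ℕ) : Prop :=
  A u = true ∧ ∃ e ∈ l, e.1 = u ∧ T e.2.1

/-- Most neighbours of `v` are active. -/
def Bv (d : ℕ) (l : List Edge) (A : ℕ → Bool) (v : ℕ) : Prop :=
  3 / 4 * (d : ℝ) ≤ Ce l fun e => e.2.1 = v ∧ A e.1 = true

theorem small_T (h : Xs n d q σ l) (A : ℕ → Bool) (T : ℕ → Prop)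
    (hT : nm n (NA l A T) ≤ n / 2) : nm n (fun v => T v ∧ Bv d l A v) ≤ 8 * σ ^ 2 * n := by
  have hn : (0 : ℝ) < n := by exact_mod_cast h.npos
  have hd : (0 : ℝ) < d := by exact_mod_cast h.dpos
  have hσ := h.nonneg
  set t := nm n (fun v => T v ∧ Bv d l A v) with ht
  set a := nm n (NA l A T) with ha
  have ht0 : 0 ≤ t := nm_nonneg _
  have ha0 : 0 ≤ a := nm_nonneg _
  have h1 := (abs_le.1 (h.emix (NA l A T) fun v => T v ∧ Bv d l A v)).2
  have h2 : 3 / 4 * d * t ≤ Ce l fun e => NA l A T e.1 ∧ T e.2.1 ∧ Bv d l A e.2.1 := by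
    rw [Ce_right h.ltR]
    refine nm_markov (fun u _ => Ce_nonneg _) fun v hv hT' => hT'.2.trans ?_
    refine Ce_mono fun e he h3 => ⟨h3.1, ⟨h3.2, e, he, rfl, ?_⟩, ?_⟩
    · rw [h3.1]
      exact hT'.1
    · rw [h3.1]
      exact hT'
  rw [← ht, ← ha] at h1
  have h3 : (d : ℝ) / n * (a * t) ≤ d / 2 * t := by
    have h4 : a / n ≤ 1 / 2 := by
      rw [div_le_iff₀ hn]
      linarith
    have h5 : (d : ℝ) / n * (a * t) = d * (a / n * t) := by ring
    have h6 := mul_le_mul_of_nonneg_left (mul_le_mul_of_nonneg_right h4 ht0) hd.le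
    linarith
  have h7 : √(a * t) ≤ √(n / 2 * t) :=
    Real.sqrt_le_sqrt (mul_le_mul_of_nonneg_right hT ht0)
  have h8 : σ * d * √(a * t) ≤ σ * d * √(n / 2 * t) :=
    mul_le_mul_of_nonneg_left h7 (by positivity)
  have h9 : d * (t / 4) ≤ d * (σ * √(n / 2 * t)) := by linarith
  have h10 : t / 4 ≤ σ * √(n / 2 * t) := le_of_mul_le_mul_left h9 hd
  have h11 : (t / 4) ^ 2 ≤ (σ * √(n / 2 * t)) ^ 2 := pow_le_pow_left₀ (by positivity) h10 2
  rw [mul_pow σ, Real.sq_sqrt (by positivity)] at h11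
  rcases ht0.eq_or_lt with h0 | h0
  · rw [← h0]
    positivity
  · have h12 : t * t ≤ t * (8 * σ ^ 2 * n) := by nlinarith
    exact le_of_mul_le_mul_left h12 h0

/-- **A good guess.** -/
theorem good_guess (h : Xs n d q σ l) (hx : ∀ u < n, x u < q) (hy : ∀ v < n, y v < q)
    {B Lc : List ℕ} (hS : SolA l (actv q l (toF B)) x y) (hF : Ex n q (toF Lc) y)
    (hBF : ∀ v < n, toF B v < q → toF Lc v < q) (hSq : Sq n q Lc)
    (hfix : ∀ v < n, cl q l (actv q l (toF B)) (toF Lc) v = toF Lc v) :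
    ∃ v0 < n, Ex n q (toF (ph3 n q l B (tab n (upd (toF Lc) v0 (y v0))))) y ∧
      nm n (fun v => q ≤ toF (ph3 n q l B (tab n (upd (toF Lc) v0 (y v0)))) v ∧
        Bv d l (actv q l (toF B)) v) ≤ 16 * σ ^ 2 * n := by
  classical
  have hn : (0 : ℝ) < n := by exact_mod_cast h.npos
  have hσ2 : 0 ≤ 8 * σ ^ 2 * n := by positivity
  set A := actv q l (toF B) with hA
  have hq : 0 < q := by
    have := hy 0 h.npos
    omega
  -- the guesses
  have hg : ∀ v0 < n, ∃ F', F' = toF (ph3 n q l B (tab n (upd (toF Lc) v0 (y v0)))) ∧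
      Ex n q F' y ∧ (∀ v < n, toF Lc v < q → F' v < q) ∧ F' v0 < q ∧
      ∀ v < n, cl q l A F' v = F' v := by
    intro v0 hv0
    refine ⟨_, rfl, ?_⟩
    have e1 : ∀ v < n, toF (tab n (upd (toF Lc) v0 (y v0))) v = upd (toF Lc) v0 (y v0) v :=
      fun v hv => toF_tab _ hv
    have e2 : Ex n q (toF (tab n (upd (toF Lc) v0 (y v0)))) y := by
      intro v hv h1
      rw [e1 v hv] at h1 ⊢
      unfold upd at h1 ⊢
      split_ifs at h1 ⊢ with h2
      · rw [h2]
      · exact hF v hv h1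
    have e3 : Sq n q (tab n (upd (toF Lc) v0 (y v0))) := by
      refine Sq_tab fun v hv => ?_
      unfold upd
      split_ifs
      · exact (hy v0 hv0).le
      · exact hSq.2 v hv
    obtain ⟨r1, r2⟩ := ph3_Ex h hx hy hS e2
    refine ⟨r1, fun v hv h1 => r2 v hv ?_, r2 v0 hv0 ?_, (ph3_fix hq B e3).2⟩
    · rw [e1 v hv]
      unfold upd
      split_ifs
      · exact hy v0 hv0
      · exact h1
    · rw [e1 v0 hv0]
      unfold upd
      rw [if_pos rfl]
      exact hy v0 hv0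
  -- a maximal closed set
  set Xc : ℕ → Prop := fun v => v < n ∧ q ≤ toF Lc v with hXc
  set Cl : Finset ℕ → Prop := fun T => (∀ v ∈ T, Xc v) ∧ ∀ e1 ∈ l, ∀ e2 ∈ l, e1.1 = e2.1 →
    A e1.1 = true → e1.2.1 ∈ T → Xc e2.2.1 → e2.2.1 ∈ T with hCl
  set fam := (range n).powerset.filter fun T => Cl T ∧ nm n (NA l A fun v => v ∈ T) ≤ n / 2
    with hfam
  have hne : fam.Nonempty := by
    refine ⟨∅, ?_⟩
    rw [hfam, mem_filter]
    refine ⟨by simp, ⟨fun v hv => absurd hv (notMem_empty _), fun e1 _ e2 _ _ _ h1 _ =>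
      absurd h1 (notMem_empty _)⟩, ?_⟩
    have : nm n (NA l A fun v => v ∈ (∅ : Finset ℕ)) ≤ 0 := by
      unfold nm
      refine sum_nonpos fun u _ => ?_
      rw [if_neg]
      rintro ⟨_, e, _, _, h1⟩
      exact absurd h1 (notMem_empty _)
    exact this.trans (by positivity)
  obtain ⟨T, hT, hmax⟩ := exists_max_image fam card hne
  rw [hfam, mem_filter, mem_powerset] at hT
  obtain ⟨hT1, hT2, hT3⟩ := hT
  have hTs := small_T h A (fun v => v ∈ T) hT3
  by_cases hall : ∀ v < n, q ≤ toF Lc v → v ∈ T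
  · obtain ⟨F', r1, r2, r3, -⟩ := hg 0 h.npos
    refine ⟨0, h.npos, by rw [← r1]; exact r2, ?_⟩
    rw [← r1]
    refine le_trans (nm_mono fun v hv h1 => ⟨?_, h1.2⟩) (hTs.trans (by linarith))
    refine hall v hv ?_
    by_contra h2
    push Not at h2
    have := r3 v hv h2
    omega
  push Not at hall
  obtain ⟨v0, hv0, hu0, hnT⟩ := hall
  obtain ⟨F', r1, r2, r3, r4, r5⟩ := hg v0 hv0
  refine ⟨v0, hv0, by rw [← r1]; exact r2, ?_⟩
  rw [← r1]
  set Sg := (range n).filter fun v => q ≤ toF Lc v ∧ F' v < q with hSg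
  have hclS : Cl (T ∪ Sg) := by
    refine ⟨fun v hv => ?_, fun e1 he1 e2 he2 heq hAe h1 h2 => ?_⟩
    · rw [mem_union] at hv
      rcases hv with hv | hv
      · exact hT2.1 v hv
      · rw [hSg, mem_filter, mem_range] at hv
        exact ⟨hv.1, hv.2.1⟩
    · rw [mem_union] at h1 ⊢
      rcases h1 with h1 | h1
      · exact Or.inl (hT2.2 e1 he1 e2 he2 heq hAe h1 h2)
      · right
        rw [hSg, mem_filter, mem_range] at h1 ⊢
        refine ⟨h2.1, h2.2, ?_⟩
        exact closed_kn h hx hy hS hF r2 hBF r3 hfix r5 he1 he2 heq hAe h1.2.1 h1.2.2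
  have hbig : (n : ℝ) / 2 < nm n (NA l A fun v => v ∈ T ∪ Sg) := by
    by_contra hcon
    push Not at hcon
    have h1 : T ∪ Sg ∈ fam := by
      rw [hfam, mem_filter, mem_powerset]
      refine ⟨union_subset hT1 (filter_subset _ _), hclS, hcon⟩
    have h2 := hmax _ h1
    have h3 : v0 ∈ Sg := by
      rw [hSg, mem_filter, mem_range]
      exact ⟨hv0, hu0, r4⟩
    have h4 : T ⊂ T ∪ Sg := by
      rw [ssubset_iff_of_subset subset_union_left]
      exact ⟨v0, mem_union_right _ h3, hnT⟩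
    have h5 := card_lt_card h4
    omega
  set R : ℕ → Prop := fun v => Xc v ∧ v ∉ T ∪ Sg with hR
  have hRs : nm n (NA l A R) ≤ n / 2 := by
    have h1 : nm n (NA l A R) + nm n (NA l A fun v => v ∈ T ∪ Sg) ≤ n := by
      have h2 : (n : ℝ) = ∑ u ∈ range n, 1 := by simp
      rw [h2]
      unfold nm
      rw [← sum_add_distrib]
      refine sum_le_sum fun u _ => ?_
      by_cases h3 : NA l A R u
      · have h4 : ¬ NA l A (fun v => v ∈ T ∪ Sg) u := by
          rintro ⟨hA1, e2, he2, hu2, hm2⟩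
          obtain ⟨_, e1, he1, hu1, hm1⟩ := h3
          have h5 := hclS.2 e2 he2 e1 he1 (by rw [hu2, hu1]) (by rw [hu2]; exact hA1) hm2 hm1.1
          exact hm1.2 h5
        rw [if_pos h3, if_neg h4]
        norm_num
      · rw [if_neg h3]
        split_ifs <;> norm_num
    linarith
  have hRs2 := small_T h A R hRs
  have h6 : nm n (fun v => q ≤ F' v ∧ Bv d l A v) ≤
      nm n (fun v => v ∈ T ∧ Bv d l A v) + nm n (fun v => R v ∧ Bv d l A v) := by
    refine nm_or fun v hv h7 => ?_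
    have h8 : q ≤ toF Lc v := by
      by_contra h9
      push Not at h9
      have := r3 v hv h9
      omega
    by_cases h9 : v ∈ T
    · exact Or.inl ⟨h9, h7.2⟩
    · refine Or.inr ⟨⟨⟨hv, h8⟩, ?_⟩, h7.2⟩
      rw [mem_union, hSg, mem_filter]
      rintro (h10 | h10)
      · exact h9 h10
      · have := h10.2.2
        omega
  linarith

theorem SolA_of (hsat : ∀ e ∈ l, tb e (x e.1) = y e.2.1) (A : ℕ → Bool) : SolA l A x y :=
  fun e he _ => hsat e he

/-- The inactive vertices are few. -/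
theorem inact_few (h : Xs n d q σ l) (F : ℕ → ℕ) (hF : nm n (fun v => q ≤ F v) ≤ n / 10) :
    nm n (fun u => ¬ actv q l F u = true) ≤ 100 * σ ^ 2 * nm n fun v => q ≤ F v := by
  have h1 := h.manyL (A := fun u => ¬ actv q l F u = true) (B := fun v => q ≤ F v)
    (τ := 1 / 5) (by norm_num) (fun u hu h2 => by
      rw [actv_iff h hu] at h2
      push Not at h2
      linarith) (by linarith)
  linarith

/-- **Phase 3**: almost everything becomes known. -/
theorem phase3 (h : Xs n d q σ l) (hσ : σ ≤ 1 / 100) (hx : ∀ u < n, x u < q)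
    (hy : ∀ v < n, y v < q) (hsat : ∀ e ∈ l, tb e (x e.1) = y e.2.1) {B : List ℕ}
    (hB : Sq n q B) (hBE : Ex n q (toF B) y) (hBn : nm n (fun v => q ≤ toF B v) ≤ n / 20) :
    ∃ v0 < n, Ex n q (toF (ph3 n q l B (tab n (upd (toF (ph3 n q l B B)) v0 (y v0))))) y ∧
      nm n (fun v => q ≤ toF (ph3 n q l B (tab n (upd (toF (ph3 n q l B B)) v0 (y v0)))) v) ≤
        17 * σ ^ 2 * n := by
  have hn : (0 : ℝ) < n := by exact_mod_cast h.npos
  have hd : (0 : ℝ) < d := by exact_mod_cast h.dpos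
  have hσ0 := h.nonneg
  have hq : 0 < q := by
    have := hy 0 h.npos
    omega
  have hS := SolA_of hsat (actv q l (toF B))
  obtain ⟨r1, r2⟩ := ph3_Ex h hx hy hS hBE
  obtain ⟨r3, r4⟩ := ph3_fix (l := l) hq B hB
  obtain ⟨v0, hv0, g1, g2⟩ := good_guess h hx hy hS r1 r2 r3 r4
  refine ⟨v0, hv0, g1, ?_⟩
  set F' := toF (ph3 n q l B (tab n (upd (toF (ph3 n q l B B)) v0 (y v0)))) with hF'
  have h1 := inact_few h (toF B) (by linarith)
  set W : ℕ → Prop := fun u => ¬ actv q l (toF B) u = true with hW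
  have h2 := h.manyR (A := W) (B := fun v => ¬ Bv d l (actv q l (toF B)) v)
    (τ := 1 / 4) (by norm_num) (fun v hv h3 => by
      unfold Bv at h3
      push Not at h3
      have h4 : (d : ℝ) ≤ Ce l (fun e => e.2.1 = v ∧ actv q l (toF B) e.1 = true) +
          Ce l (fun e => e.2.1 = v ∧ W e.1) := by
        rw [← h.Ce_dR hv]
        refine Ce_or fun e _ h5 => ?_
        by_cases h6 : actv q l (toF B) e.1 = true
        · exact Or.inl ⟨h5, h6⟩
        · exact Or.inr ⟨h5, h6⟩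
      linarith) (by
      have h5 : 100 * σ ^ 2 * nm n (fun v => q ≤ toF B v) ≤ 1 / 100 * (n / 20) := by
        refine mul_le_mul ?_ hBn (nm_nonneg _) (by norm_num)
        nlinarith
      have h6 : nm n W ≤ 1 / 100 * (n / 20) := h1.trans h5
      linarith)
  have h3 : nm n (fun v => q ≤ F' v) ≤ nm n (fun v => q ≤ F' v ∧
      Bv d l (actv q l (toF B)) v) + nm n (fun v => ¬ Bv d l (actv q l (toF B)) v) := by
    refine nm_or fun v _ h4 => ?_
    by_cases h5 : Bv d l (actv q l (toF B)) v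
    · exact Or.inl ⟨h4, h5⟩
    · exact Or.inr h5
  have hW1 : nm n W ≤ 5 * σ ^ 2 * n := by
    refine h1.trans ?_
    have := mul_le_mul_of_nonneg_left hBn (by positivity : 0 ≤ 100 * σ ^ 2)
    linarith
  have h4 : nm n (fun v => ¬ Bv d l (actv q l (toF B)) v) ≤ σ ^ 2 * n := by
    have h5 : 64 * σ ^ 2 * nm n W ≤ 64 * σ ^ 2 * (5 * σ ^ 2 * n) :=
      mul_le_mul_of_nonneg_left hW1 (by positivity)
    have h6 : 64 * σ ^ 2 * (5 * σ ^ 2 * n) ≤ σ ^ 2 * n := by
      have h7 : 320 * σ ^ 2 ≤ 1 := by nlinarith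
      have h8 : 0 ≤ σ ^ 2 * n := by positivity
      nlinarith
    linarith
  linarith

end Ph3

end Pool.Agent.K6.H49.TTS
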